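import Pool.Agent.KS6_48.VP.ZRu

/-! Auerbach bases and the associated weights. -/

set_option autoImplicit false

open Matrix MeasureTheory Metric Filter Topology
open scoped ComplexOrder MatrixOrder Matrix.Norms.L2Operator

namespace Pool.Agent.KS6_48.VP

open Pool.Agent.H940R3.VD Pool.Agent.H805R2.Gram Pool.Agent.H805R2.Fek

section

variable {ι : Type*} [Fintype ι] [DecidableEq ι]

theorem auerbach {F : Type*} [NormedAddCommGroup F] [NormedSpace ℂ F] (T : (ι → ℂ) →ₗ[ℂ] F)
    (hT : LinearMap.ker T = ⊥) : ∃ x : ι → (ι → ℂ), (∀ j, ‖T (x j)‖ ≤ 1) ∧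
      ∀ c : ι → ℂ, ∃ t : ι → ℂ, (∀ j, ‖t j‖ ≤ ‖T c‖) ∧ c = ∑ j, t j • x j := by
  have hTc : Continuous T := T.continuous_of_finiteDimensional
  obtain ⟨A, hA0, hA⟩ := T.exists_antilipschitzWith hT
  set S : Set (ι → ℂ) := {c | ‖T c‖ ≤ 1} with hS
  have hSc : IsCompact S := by
    apply Metric.isCompact_of_isClosed_isBounded (isClosed_le hTc.norm continuous_const)
    rw [Metric.isBounded_iff_subset_closedBall 0]
    refine ⟨A, fun c hc => ?_⟩
    rw [mem_closedBall_zero_iff]
    have h1 := hA.le_mul_dist c 0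
    rw [dist_zero_right, map_zero, dist_zero_right] at h1
    have h2 : ‖T c‖ ≤ 1 := hc
    calc ‖c‖ ≤ A * ‖T c‖ := h1
      _ ≤ A * 1 := by gcongr
      _ = A := mul_one _
  set ee : (ι → ℂ) → ι → ℂ := fun c => c with hee
  have hdet : Continuous fun x : ι → (ι → ℂ) => (ev ee x).det := by
    apply Continuous.matrix_det
    apply continuous_matrix
    intro i j
    exact (continuous_apply j).comp (continuous_apply i)
  have h0 : (0 : ι → ℂ) ∈ S := by
    change ‖T 0‖ ≤ 1
    simp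
  have hcomp : IsCompact (Set.pi Set.univ (fun _ : ι => S)) := isCompact_univ_pi fun _ => hSc
  obtain ⟨x, hx, hmax⟩ := hcomp.exists_isMaxOn ⟨fun _ => 0, fun _ _ => h0⟩ hdet.norm.continuousOn
  -- nonzero determinant
  have hne : (ev ee x).det ≠ 0 := by
    obtain ⟨B, hB⟩ : ∃ B : ℝ, ∀ j : ι, ‖T (Pi.single j 1)‖ ≤ B := by
      refine ⟨∑ j, ‖T (Pi.single j 1)‖, fun j => ?_⟩
      exact Finset.single_le_sum (f := fun j => ‖T (Pi.single j (1 : ℂ))‖)
        (fun i _ => norm_nonneg _) (Finset.mem_univ j)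
    set ε : ℝ := (max B 1)⁻¹ with hε
    have hm : 0 < max B 1 := lt_of_lt_of_le one_pos (le_max_right _ _)
    have hε0 : 0 < ε := inv_pos.mpr hm
    set y : ι → (ι → ℂ) := fun j => (ε : ℂ) • Pi.single j 1 with hy
    have hyS : ∀ j, y j ∈ S := by
      intro j
      change ‖T ((ε : ℂ) • Pi.single j 1)‖ ≤ 1
      rw [map_smul, norm_smul, Complex.norm_real, Real.norm_of_nonneg hε0.le, hε,
        inv_mul_le_iff₀ hm, mul_one]
      exact (hB j).trans (le_max_left _ _)
    have h1 : (ev ee y).det = (ε : ℂ) ^ Fintype.card ι := by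
      have : ev ee y = (ε : ℂ) • (1 : Matrix ι ι ℂ) := by
        ext i j
        simp only [ev, hee, hy, Matrix.of_apply, Pi.smul_apply, smul_eq_mul, Matrix.smul_apply,
          Matrix.one_apply, Pi.single_apply]
        by_cases h : i = j
        · subst h; simp
        · rw [if_neg h, if_neg (Ne.symm h)]
      rw [this, Matrix.det_smul, Matrix.det_one, mul_one]
    have h2 := hmax (show y ∈ Set.pi Set.univ (fun _ : ι => S) from fun j _ => hyS j)
    simp only [Set.mem_setOf_eq] at h2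
    rw [h1] at h2
    intro h3
    rw [h3, norm_zero, norm_pow, Complex.norm_real, Real.norm_of_nonneg hε0.le] at h2
    have : 0 < ε ^ Fintype.card ι := by positivity
    linarith
  have hFk : Fk ee S x := ⟨fun j => hx j (Set.mem_univ j), fun y hy => hmax (fun j _ => hy j), hne⟩
  refine ⟨x, fun j => hx j (Set.mem_univ j), fun c => ?_⟩
  set E := ev ee x with hE
  have hdetu : IsUnit E.det := isUnit_iff_ne_zero.mpr hne
  refine ⟨c ᵥ* E⁻¹, fun j => ?_, ?_⟩
  · have hsc : ∀ (s : ℂ) (c' : ι → ℂ), ((s • c') ᵥ* E⁻¹) j = s * (c' ᵥ* E⁻¹) j := by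
      intro s c'
      rw [Matrix.smul_vecMul]
      rfl
    rcases eq_or_ne c 0 with h | h
    · subst h
      simp
    · have hTc0 : 0 < ‖T c‖ := by
        rw [norm_pos_iff]
        intro h1
        apply h
        have : c ∈ LinearMap.ker T := h1
        rwa [hT, Submodule.mem_bot] at this
      have h1 : (((‖T c‖ : ℝ) : ℂ)⁻¹ • c) ∈ S := by
        change ‖T (((‖T c‖ : ℝ) : ℂ)⁻¹ • c)‖ ≤ 1
        rw [map_smul, norm_smul, norm_inv, Complex.norm_real, norm_norm,
          inv_mul_cancel₀ hTc0.ne']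
      have h2 := lagrange hFk j h1
      have h3 : sm ee (fun α => E⁻¹ α j) (((‖T c‖ : ℝ) : ℂ)⁻¹ • c) =
          ((‖T c‖ : ℝ) : ℂ)⁻¹ * (c ᵥ* E⁻¹) j := by
        rw [← hsc]
        simp only [sm, vecMul, dotProduct, hee]
        exact Finset.sum_congr rfl fun α _ => mul_comm _ _
      rw [h3, norm_mul, norm_inv, Complex.norm_real, norm_norm, inv_mul_le_iff₀ hTc0,
        mul_one] at h2
      exact h2
  · have : c = (c ᵥ* E⁻¹) ᵥ* E := by
      rw [vecMul_vecMul, nonsing_inv_mul _ hdetu, vecMul_one]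
    conv_lhs => rw [this]
    ext α
    simp only [vecMul, dotProduct, Finset.sum_apply, Pi.smul_apply, smul_eq_mul]
    rfl

end

variable {n : ℕ}

/-- The weight: a bounded function `h` with `|f| ≤ h ‖f‖_p` on `K` for all polynomials of degree at
most `k`, and with `∫ h^p dμ ≤ N^p`. -/
theorem exists_weight {R : ℝ} (hR : 0 < R) {K : Set (Fin n → ℂ)} (hK : K ⊆ closedBall 0 R)
    {μ : Measure (Fin n → ℂ)} [IsFiniteMeasure μ] (hμ : μ Kᶜ = 0) {p : ℝ} (hp : 1 ≤ p) (k : ℕ)
    (hpos : ∀ c : Ix n k → ℂ, Nm p μ (sm (e n R k) c) = 0 → c = 0) :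
    ∃ (h : (Fin n → ℂ) → ℝ) (G : ℝ), Measurable h ∧ (∀ z, 0 ≤ h z) ∧ (∀ z, h z ≤ G) ∧
      (∀ f, IsP k f → ∀ z ∈ K, ‖f z‖ ≤ h z * Nm p μ f) ∧
      ∫ z, h z ^ p ∂μ ≤ (NN n k : ℝ) ^ p := by
  have hp0 : 0 < p := by linarith
  have : Fact (1 ≤ ENNReal.ofReal p) := ⟨by rw [← ENNReal.ofReal_one]; exact ENNReal.ofReal_le_ofReal hp⟩
  have hmem : ∀ c : Ix n k → ℂ, MemLp (sm (e n R k) c) (ENNReal.ofReal p) μ := fun c =>
    memLp_p hK hμ (isP_sm R k c).continuous
  let T : (Ix n k → ℂ) →ₗ[ℂ] Lp ℂ (ENNReal.ofReal p) μ :=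
    { toFun := fun c => (hmem c).toLp _
      map_add' := by
        intro c c'
        rw [← MemLp.toLp_add]
        congr 1
        funext z
        simp only [sm, Pi.add_apply, add_mul, Finset.sum_add_distrib]
      map_smul' := by
        intro s c
        rw [RingHom.id_apply, ← MemLp.toLp_const_smul]
        congr 1
        funext z
        simp only [sm, Pi.smul_apply, smul_eq_mul, Finset.mul_sum, mul_assoc] }
  have hTn : ∀ c, ‖T c‖ = Nm p μ (sm (e n R k) c) := by
    intro c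
    change ‖(hmem c).toLp _‖ = _
    rw [Lp.norm_toLp, eLpNorm_p hK hμ hp0 (isP_sm R k c).continuous,
      ENNReal.toReal_ofReal (Nm_nonneg _ _ _)]
  have hker : LinearMap.ker T = ⊥ := by
    rw [LinearMap.ker_eq_bot']
    intro c hc
    apply hpos
    rw [← hTn, hc, norm_zero]
  obtain ⟨x, hx1, hx2⟩ := auerbach T hker
  set F : Ix n k → (Fin n → ℂ) → ℂ := fun j => sm (e n R k) (x j) with hF
  have hFc : ∀ j, Continuous (F j) := fun j => (isP_sm R k (x j)).continuous
  set u : (Fin n → ℂ) → ℝ := fun z => ∑ j, ‖F j z‖ with hu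
  have huc : Continuous u := continuous_finsetSum _ fun j _ => (hFc j).norm
  have hu0 : ∀ z, 0 ≤ u z := fun z => Finset.sum_nonneg fun _ _ => norm_nonneg _
  obtain ⟨G, hG⟩ := (isCompact_closedBall (0 : Fin n → ℂ) R).exists_bound_of_continuousOn
    huc.continuousOn
  refine ⟨(closedBall (0 : Fin n → ℂ) R).indicator u, max G 0,
    huc.measurable.indicator measurableSet_closedBall, ?_, ?_, ?_, ?_⟩
  · intro z
    exact Set.indicator_nonneg (fun _ _ => hu0 _) z
  · intro z
    by_cases hz : z ∈ closedBall (0 : Fin n → ℂ) R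
    · rw [Set.indicator_of_mem hz]
      exact ((le_abs_self _).trans (hG z hz)).trans (le_max_left _ _)
    · rw [Set.indicator_of_notMem hz]
      exact le_max_right _ _
  · intro f hf z hz
    rw [Set.indicator_of_mem (hK hz)]
    obtain ⟨c, hc⟩ := hf.coef hR
    obtain ⟨t, ht1, ht2⟩ := hx2 c
    have hfc : f = sm (e n R k) c := funext hc
    have h1 : f z = ∑ j, t j * F j z := by
      rw [hc, ht2]
      simp only [sm, hF, Finset.sum_apply, Pi.smul_apply, smul_eq_mul, Finset.sum_mul,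
        Finset.mul_sum, mul_assoc]
      rw [Finset.sum_comm]
    rw [h1, hu]
    simp only
    rw [Finset.sum_mul]
    refine (norm_sum_le _ _).trans (Finset.sum_le_sum fun j _ => ?_)
    rw [norm_mul, mul_comm]
    have h2 := ht1 j
    rw [hTn, ← hfc] at h2
    gcongr
  · have hae : ∀ᵐ z ∂μ, z ∈ K := by
      rw [ae_iff]
      exact hμ
    have h1 : ∫ z, ((closedBall (0 : Fin n → ℂ) R).indicator u z) ^ p ∂μ = ∫ z, u z ^ p ∂μ := by
      apply integral_congr_ae
      filter_upwards [hae] with z hz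
      simp only [Set.indicator_of_mem (hK hz)]
    rw [h1]
    have hFi : ∀ j, ∫ z, ‖F j z‖ ^ p ∂μ ≤ 1 := by
      intro j
      have h2 := hx1 j
      rw [hTn] at h2
      unfold Nm at h2
      by_contra hcon
      push Not at hcon
      have := Real.one_lt_rpow hcon (by positivity : 0 < 1 / p)
      linarith
    have hui : Integrable (fun z => u z ^ p) μ := by
      have := int_p hK hμ hp0.le (f := fun z => (u z : ℂ)) (by fun_prop)
      refine this.congr (Filter.Eventually.of_forall fun z => ?_)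
      simp only [Complex.norm_real, Real.norm_of_nonneg (hu0 z)]
    have hNpos : (0 : ℝ) < NN n k := by exact_mod_cast NN_pos n k
    calc ∫ z, u z ^ p ∂μ ≤ ∫ z, (NN n k : ℝ) ^ (p - 1) * ∑ j, ‖F j z‖ ^ p ∂μ := by
          apply integral_mono hui
          · exact (integrable_finsetSum _ fun j _ => int_p hK hμ hp0.le (hFc j)).const_mul _
          · intro z
            have h3 := Real.rpow_sum_le_const_mul_sum_rpow_of_nonneg (s := Finset.univ)
              (f := fun j => ‖F j z‖) hp (fun j _ => norm_nonneg _)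
            rw [Finset.card_univ, card_Ix] at h3
            exact h3
      _ = (NN n k : ℝ) ^ (p - 1) * ∑ j : Ix n k, ∫ z, ‖F j z‖ ^ p ∂μ := by
          rw [integral_const_mul, integral_finsetSum _ fun j _ => int_p hK hμ hp0.le (hFc j)]
      _ ≤ (NN n k : ℝ) ^ (p - 1) * ∑ _j : Ix n k, (1 : ℝ) := by
          gcongr with j _
          exact hFi j
      _ = (NN n k : ℝ) ^ p := by
          rw [Finset.sum_const, Finset.card_univ, card_Ix, nsmul_eq_mul, mul_one,
            ← Real.rpow_add_one hNpos.ne']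
          congr 1
          ring

/-- comparison of the norm of `L^p(μ)` with the norm of the weighted `L²` space -/
theorem Nm_sq_le {R : ℝ} {K : Set (Fin n → ℂ)} (hK : K ⊆ closedBall 0 R)
    {μ : Measure (Fin n → ℂ)} [IsFiniteMeasure μ] (hμ : μ Kᶜ = 0) {p : ℝ} (hp : 2 < p)
    {h : (Fin n → ℂ) → ℝ} {G : ℝ} (hm : Measurable h) (h0 : ∀ z, 0 ≤ h z) (hG : ∀ z, h z ≤ G)
    {f : (Fin n → ℂ) → ℂ} (hf : Continuous f) (hfh : ∀ z ∈ K, ‖f z‖ ≤ h z * Nm p μ f) :
    Nm p μ f ^ 2 ≤ ∫ z, ‖f z‖ ^ 2 ∂(wm μ fun z => h z ^ (p - 2)) := by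
  have hp0 : 0 < p := by linarith
  have hw0 : ∀ z, 0 ≤ h z ^ (p - 2) := fun z => Real.rpow_nonneg (h0 z) _
  rw [integral_wm (hm.pow_const _) hw0]
  set N := Nm p μ f with hN
  have hN0 : 0 ≤ N := Nm_nonneg _ _ _
  rcases hN0.eq_or_lt with h1 | h1
  · rw [← h1]
    simp only [ne_eq, OfNat.ofNat_ne_zero, not_false_eq_true, zero_pow]
    exact integral_nonneg fun z => mul_nonneg (hw0 z) (by positivity)
  have hI0 : 0 ≤ ∫ z, ‖f z‖ ^ p ∂μ := integral_nonneg fun _ => by positivity
  have hNp : N ^ p = ∫ z, ‖f z‖ ^ p ∂μ := by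
    rw [hN, Nm, ← Real.rpow_mul hI0, one_div_mul_cancel hp0.ne', Real.rpow_one]
  have hae : ∀ᵐ z ∂μ, z ∈ K := by
    rw [ae_iff]
    exact hμ
  have hi2 : Integrable (fun z => h z ^ (p - 2) * ‖f z‖ ^ 2) μ := by
    have h2 : Integrable (fun z => ‖f z‖ ^ 2) μ := by
      have := int_p hK hμ (p := 2) (by norm_num) hf
      refine this.congr (Filter.Eventually.of_forall fun z => ?_)
      simp
    refine h2.bdd_mul (hm.pow_const _).aestronglyMeasurable (c := G ^ (p - 2))
      (Filter.Eventually.of_forall fun z => ?_)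
    rw [Real.norm_of_nonneg (hw0 z)]
    exact Real.rpow_le_rpow (h0 z) (hG z) (by linarith)
  have h2 : N ^ p ≤ N ^ (p - 2) * ∫ z, h z ^ (p - 2) * ‖f z‖ ^ 2 ∂μ := by
    rw [hNp, ← integral_const_mul]
    apply integral_mono_ae (int_p hK hμ hp0.le hf) (hi2.const_mul _)
    filter_upwards [hae] with z hz
    have h3 := hfh z hz
    calc ‖f z‖ ^ p = ‖f z‖ ^ (p - 2) * ‖f z‖ ^ 2 := by
          rw [← Real.rpow_natCast, ← Real.rpow_add' (norm_nonneg _) (by push_cast; linarith)]
          congr 1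
          push_cast
          ring
      _ ≤ (h z * N) ^ (p - 2) * ‖f z‖ ^ 2 := by
          gcongr
      _ = N ^ (p - 2) * (h z ^ (p - 2) * ‖f z‖ ^ 2) := by
          rw [Real.mul_rpow (h0 z) hN0]
          ring
  have h4 : N ^ p = N ^ (p - 2) * N ^ 2 := by
    rw [← Real.rpow_natCast N 2, ← Real.rpow_add h1]
    congr 1
    push_cast
    ring
  rw [h4] at h2
  exact le_of_mul_le_mul_left h2 (Real.rpow_pos_of_pos h1 _)

end Pool.Agent.KS6_48.VP
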