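import Pool.Graph.R_seed8.H940R3.Zah.D

/-! Conditions (R) and (Z) for all exponents. -/

set_option autoImplicit false

open MeasureTheory Filter Topology

namespace Pool.Agent.KS6_48.VP

open Pool.Agent.H940R3.VD Pool.Agent.H805R2.Fek

/-- Condition (R) with the norm of `L^p(μ)` (quasinorm if `p < 1`). -/
def CondRp {n : ℕ} (p : ℝ) (K : Set (Fin n → ℂ)) (μ : Measure (Fin n → ℂ)) : Prop :=
  ∀ f : ℕ → MvPolynomial (Fin n) ℂ, (∀ j, f j ≠ 0) →
    Tendsto (fun j => (f j).totalDegree) atTop atTop → ∀ z : Fin n → ℂ,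
      limsup (fun j => (‖MvPolynomial.eval z (f j)‖ₑ /
        eLpNorm (fun w => MvPolynomial.eval w (f j)) (ENNReal.ofReal p) μ) ^
          (1 / ((f j).totalDegree : ℝ))) atTop ≤ (VKstar K z).exp

/-- The `q`-th moment of the Vandermonde determinant. -/
noncomputable def Zkq {n : ℕ} (q : ℝ) (μ : Measure (Fin n → ℂ)) (k : ℕ) : ℝ :=
  ∫ x, ‖vdm n k x‖ ^ q ∂(Measure.pi fun _ : Ix n k => μ)

/-- Condition (Z) for the exponent `q` and the transfinite diameter `δ`. -/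
def CondZq {n : ℕ} (q : ℝ) (μ : Measure (Fin n → ℂ)) (δ : ℝ) : Prop :=
  Tendsto (fun k => Zkq q μ k ^ (1 / (q * lk n k))) atTop (𝓝 δ)

/-- Quantitative form of condition (Z). -/
def Good {n : ℕ} (q : ℝ) (K : Set (Fin n → ℂ)) (μ : Measure (Fin n → ℂ)) : Prop :=
  ∀ τ : ℝ, 0 < τ → ∀ᶠ k : ℕ in atTop, 0 < maxVdm K k ∧
    maxVdm K k ^ q * Real.exp (-(τ * (k * NN n k))) ≤ Zkq q μ k

end Pool.Agent.KS6_48.VP
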