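import Pool.Agent.KS6_48.VP.RZc

/-! The equivalence of conditions (R) and (Z) for all pairs of exponents. -/

set_option autoImplicit false

open Matrix MeasureTheory Metric Filter Topology
open scoped ComplexOrder MatrixOrder Matrix.Norms.L2Operator

namespace Pool.Agent.KS6_48.VP

open Pool.Agent.H940R3.VD Pool.Agent.H805R2.Gram Pool.Agent.H805R2.Fek

variable {n : ℕ}

/-- locally uniform upper bounds, by Baire's theorem -/
theorem Ubd_p {K : Set (Fin n → ℂ)}
    {μ : Measure (Fin n → ℂ)} {p : ℝ}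
    (hB : Bnd p K μ) (hfin : ∀ z, VKstar K z < ⊤) {R : ℝ} (hR : 0 < R) :
    ∃ (k₁ : ℕ) (Cb : ℝ), 0 ≤ Cb ∧ ∀ k ≥ k₁, ∀ f : (Fin n → ℂ) → ℂ, IsP k f →
      ∀ z ∈ closedBall (0 : Fin n → ℂ) R, ‖f z‖ ≤ Real.exp (k * Cb) * Nm p μ f := by
  set E : ℕ → Set (Fin n → ℂ) := fun N => ⋂ (k : ℕ), ⋂ (_ : N ≤ k), ⋂ (f : (Fin n → ℂ) → ℂ),
    ⋂ (_ : IsP k f), {z | ‖f z‖ ≤ Real.exp (k * N) * Nm p μ f} with hE
  have hcl : ∀ N, IsClosed (E N) := by
    intro N
    refine isClosed_iInter fun k => isClosed_iInter fun _ => isClosed_iInter fun f =>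
      isClosed_iInter fun hf => ?_
    have := hf.continuous
    exact isClosed_le (by fun_prop) continuous_const
  have hmem : ∀ N z, z ∈ E N ↔ ∀ k, N ≤ k → ∀ f : (Fin n → ℂ) → ℂ, IsP k f →
      ‖f z‖ ≤ Real.exp (k * N) * Nm p μ f := by
    intro N z
    rw [hE]
    simp only [Set.mem_iInter]
    rfl
  have hun : ⋃ N, E N = Set.univ := by
    rw [Set.eq_univ_iff_forall]
    intro z
    obtain ⟨c, hc, _⟩ := EReal.lt_iff_exists_real_btwn.mp (hfin z)
    obtain ⟨k₀, hk₀⟩ := hB z c hc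
    rw [Set.mem_iUnion]
    refine ⟨max k₀ ⌈c⌉₊, ?_⟩
    rw [hmem]
    intro k hk f hf
    refine (hk₀ k ((le_max_left _ _).trans hk) f hf).trans ?_
    apply mul_le_mul_of_nonneg_right _ (Nm_nonneg _ _ _)
    apply Real.exp_le_exp.mpr
    have h1 : c ≤ ((max k₀ ⌈c⌉₊ : ℕ) : ℝ) := (Nat.le_ceil c).trans (by
      exact_mod_cast le_max_right _ _)
    have h2 : (0 : ℝ) ≤ k := by positivity
    exact mul_le_mul_of_nonneg_left h1 h2
  obtain ⟨N, a, ha⟩ := nonempty_interior_of_iUnion_of_closed hcl hun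
  obtain ⟨r', hr', hr2⟩ := Metric.isOpen_iff.mp isOpen_interior a ha
  set r := r' / 2 with hr
  have hr0 : 0 < r := by positivity
  have hball : closedBall a r ⊆ E N := by
    intro w hw
    apply interior_subset
    apply hr2
    rw [mem_closedBall] at hw
    rw [mem_ball]
    linarith
  set A := 1 + (R + ‖a‖) / r with hA
  have hA1 : 1 ≤ A := by
    have : 0 ≤ (R + ‖a‖) / r := by positivity
    linarith
  have hA0 : 0 < A := by linarith
  refine ⟨N, N + Real.log A, by have := Real.log_nonneg hA1; positivity, ?_⟩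
  intro k hk f hf z hz
  set I := Nm p μ f with hI
  have hI0 : 0 ≤ I := Nm_nonneg _ _ _
  rw [mem_closedBall_zero_iff] at hz
  have key : ∀ t : ℝ, 0 < t → ‖f z‖ ≤ Real.exp (k * (N + Real.log A)) * (I + t) := by
    intro t ht
    have hM : 0 < Real.exp (k * N) * (I + t) := by positivity
    have h1 := bwn hf hr0 hM (by
      intro w hw
      have h2 := (hmem N w).mp (hball hw) k hk f hf
      refine h2.trans ?_
      gcongr
      linarith) z
    refine h1.trans ?_
    have h4 : max 1 (‖z - a‖ / r) ≤ A := by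
      apply max_le hA1
      rw [hA]
      have h5 : ‖z - a‖ / r ≤ (R + ‖a‖) / r := by
        gcongr
        exact (norm_sub_le _ _).trans (by linarith)
      linarith
    have h6 : Real.exp (k * (N + Real.log A)) = Real.exp (k * N) * A ^ k := by
      rw [mul_add, Real.exp_add, Real.exp_nat_mul (Real.log A), Real.exp_log hA0]
    rw [h6]
    calc Real.exp (k * N) * (I + t) * max 1 (‖z - a‖ / r) ^ k ≤
          Real.exp (k * N) * (I + t) * A ^ k := by gcongr
      _ = _ := by ring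
  apply le_of_forall_pos_le_add
  intro ε hε
  have := key (ε / Real.exp (k * (N + Real.log A))) (by positivity)
  rw [mul_add, mul_div_cancel₀ _ (Real.exp_pos _).ne'] at this
  exact this

lemma Nm_pos_of {R : ℝ} {K : Set (Fin n → ℂ)} (hK : K ⊆ closedBall 0 R)
    {μ : Measure (Fin n → ℂ)} {p : ℝ} {k₁ : ℕ} {Cb : ℝ}
    (hbd : ∀ k ≥ k₁, ∀ f : (Fin n → ℂ) → ℂ, IsP k f →
      ∀ z ∈ closedBall (0 : Fin n → ℂ) R, ‖f z‖ ≤ Real.exp (k * Cb) * Nm p μ f)
    {k : ℕ} {x : Ix n k → (Fin n → ℂ)} (hx : Fk (e n R k) K x) (c : Ix n k → ℂ)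
    (h0 : Nm p μ (sm (e n R k) c) = 0) : c = 0 := by
  have h5 : ∀ z ∈ K, sm (e n R k) c z = 0 := by
    intro z hz
    have h6 := hbd (max k k₁) (le_max_right _ _) _ ((isP_sm R k c).mono (le_max_left _ _)) z (hK hz)
    rw [h0, mul_zero] at h6
    exact norm_le_zero_iff.mp h6
  have h8 : ev (e n R k) x *ᵥ c = 0 := by
    ext j
    have h9 := h5 (x j) (hx.mem j)
    simp only [mulVec, dotProduct, ev, Matrix.of_apply, Pi.zero_apply]
    rw [← h9]
    unfold sm
    exact Finset.sum_congr rfl fun _ _ => mul_comm _ _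
  have h10 : IsUnit (ev (e n R k) x).det := isUnit_iff_ne_zero.mpr hx.ne
  calc c = (ev (e n R k) x)⁻¹ *ᵥ (ev (e n R k) x *ᵥ c) := by
        rw [mulVec_mulVec, nonsing_inv_mul _ h10, one_mulVec]
    _ = 0 := by rw [h8, mulVec_zero]

/-- lower bound of `Z_k` from a lower bound of the Gram determinant -/
theorem Z_of_gb {R : ℝ} (hR : 0 < R) {K : Set (Fin n → ℂ)} (hK : K ⊆ closedBall 0 R)
    {μ : Measure (Fin n → ℂ)} [IsFiniteMeasure μ] (hμ : μ Kᶜ = 0) {τ : ℝ} {k : ℕ}
    (h : GB K R τ μ k) : 0 < maxVdm K k ∧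
      maxVdm K k ^ 2 * Real.exp (-(τ * (k * NN n k))) ≤ Zk μ k := by
  obtain ⟨x, hx, hpd, hy⟩ := h
  have hD := det_re_pos hpd
  have hM : 0 < ‖(ev (e n R k) x).det‖ := norm_pos_iff.mpr hx.ne
  have hmv := maxVdm_eq hR hx.mem hx.max
  have hZ := Zk_eq hR hK hμ k
  have hmvp : 0 < maxVdm K k := by rw [hmv]; positivity
  have hfac : (1 : ℝ) ≤ (NN n k).factorial := by
    exact_mod_cast Nat.one_le_iff_ne_zero.mpr (Nat.factorial_ne_zero _)
  refine ⟨hmvp, ?_⟩
  rw [hZ, hmv, mul_pow]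
  have h2 : ‖(ev (e n R k) x).det‖ ^ 2 * Real.exp (-(τ * (k * NN n k))) ≤
      (Gk μ R k).det.re := by
    have h3 : ‖(ev (e n R k) x).det‖ ^ 2 / (Gk μ R k).det.re ≤ Real.exp (τ * (k * NN n k)) :=
      (Real.log_le_iff_le_exp (by positivity)).mp hy
    rw [div_le_iff₀ hD] at h3
    rw [Real.exp_neg, ← div_eq_mul_inv, div_le_iff₀ (Real.exp_pos _)]
    linarith
  calc (R ^ (n * SS n k)) ^ 2 * ‖(ev (e n R k) x).det‖ ^ 2 * Real.exp (-(τ * (k * NN n k)))
      = (R ^ (n * SS n k)) ^ 2 *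
        (1 * (‖(ev (e n R k) x).det‖ ^ 2 * Real.exp (-(τ * (k * NN n k))))) := by ring
    _ ≤ _ := by gcongr

/-- exponents above two -/
theorem good_of_bnd (hn : 1 ≤ n) {K : Set (Fin n → ℂ)} (hKne : K.Nonempty)
    (hKc : IsCompact K) {μ : Measure (Fin n → ℂ)} [IsFiniteMeasure μ] (hμ : μ Kᶜ = 0)
    {δ : ℝ} (hδ0 : 0 < δ) (hδ : Tendsto (fun k => maxVdm K k ^ (1 / lk n k)) atTop (𝓝 δ))
    {p : ℝ} (hp2 : 2 < p) (hB : Bnd p K μ) : Good p K μ := by
  have hp : 0 < p := by linarith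
  obtain ⟨R₀, hR₀⟩ := hKc.isBounded.subset_closedBall (0 : Fin n → ℂ)
  set R := max R₀ 0 + 1 with hRdef
  have hR : 0 < R := by have := le_max_right R₀ 0; linarith
  have hKb : K ⊆ ball 0 R := by
    intro z hz
    have h1 := hR₀ hz
    rw [mem_closedBall] at h1
    rw [mem_ball]
    have := le_max_left R₀ 0
    linarith
  have hK : K ⊆ closedBall 0 R := hKb.trans ball_subset_closedBall
  have hfk := fk_all hn hR hKc hKne hδ0 hδ
  have hfin := VKstar_fin hn hKc hKne hδ0 hδ
  obtain ⟨k₁, Cb, hCb0, hbd⟩ := Ubd_p hB hfin hR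
  have hpos : ∀ (k : ℕ) (c : Ix n k → ℂ), Nm p μ (sm (e n R k) c) = 0 → c = 0 := by
    intro k c hc
    obtain ⟨x, hx⟩ := hfk k
    exact Nm_pos_of hK hbd hx c hc
  choose h G hm h0 hG hfh hhp using fun k => exists_weight hR hK hμ (by linarith : 1 ≤ p) k (hpos k)
  set ν : ℕ → Measure (Fin n → ℂ) := fun k => wm μ fun z => h k z ^ (p - 2) with hν
  have hw0 : ∀ k z, 0 ≤ h k z ^ (p - 2) := fun k z => Real.rpow_nonneg (h0 k z) _
  have hwi : ∀ k, Integrable (fun z => h k z ^ (p - 2)) μ := by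
    intro k
    refine Integrable.mono' (g := fun _ => G k ^ (p - 2)) (integrable_const _)
      ((hm k).pow_const _).aestronglyMeasurable (Filter.Eventually.of_forall fun x => ?_)
    rw [Real.norm_of_nonneg (hw0 k x)]
    exact Real.rpow_le_rpow (h0 k x) (hG k x) (by linarith)
  have hfinν : ∀ k, IsFiniteMeasure (ν k) := fun k => wm_finite (hwi k)
  have hν0 : ∀ k, ν k Kᶜ = 0 := fun k => wm_null hμ
  have hsq : ∀ k f, IsP k f → Nm p μ f ^ 2 ≤ ∫ w, ‖f w‖ ^ 2 ∂(ν k) := fun k f hf =>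
    Nm_sq_le hK hμ hp2 (hm k) (h0 k) (hG k) hf.continuous (hfh k f hf)
  have hmassle : ∀ k, (ν k).real Set.univ ≤ μ.real Set.univ + (NN n k : ℝ) ^ p := by
    intro k
    have hhpi : Integrable (fun z => h k z ^ p) μ := by
      refine Integrable.mono' (g := fun _ => G k ^ p) (integrable_const _)
        ((hm k).pow_const _).aestronglyMeasurable (Filter.Eventually.of_forall fun x => ?_)
      rw [Real.norm_of_nonneg (Real.rpow_nonneg (h0 k x) _)]
      exact Real.rpow_le_rpow (h0 k x) (hG k x) hp.le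
    rw [hν]
    simp only
    rw [real_wm ((hm k).pow_const _) (hw0 k)]
    calc ∫ z, h k z ^ (p - 2) ∂μ ≤ ∫ z, (1 + h k z ^ p) ∂μ := by
          apply integral_mono (hwi k) ((integrable_const _).add hhpi)
          intro z
          change h k z ^ (p - 2) ≤ 1 + h k z ^ p
          have h2 : 0 ≤ h k z ^ p := Real.rpow_nonneg (h0 k z) _
          rcases le_total 1 (h k z) with h1 | h1
          · have := Real.rpow_le_rpow_of_exponent_le h1 (by linarith : p - 2 ≤ p)
            linarith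
          · have := Real.rpow_le_one (h0 k z) h1 (by linarith : 0 ≤ p - 2)
            linarith
      _ = μ.real Set.univ + ∫ z, h k z ^ p ∂μ := by
          rw [integral_add (integrable_const _) hhpi, integral_const, smul_eq_mul, mul_one]
      _ ≤ _ := by
          have := hhp k
          linarith
  have hlogNN : ∀ τ : ℝ, 0 < τ → ∀ᶠ k : ℕ in atTop, Real.log (NN n k) ≤ τ * k := by
    intro τ hτ
    have h1 := log_NN n (C := 0) le_rfl hτ
    simpa using h1
  have hmass : ∀ τ : ℝ, 0 < τ → ∀ᶠ k : ℕ in atTop,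
      Real.log ((ν k).real Set.univ + NN n k) ≤ τ * k := by
    intro τ hτ
    set m := μ.real Set.univ with hmdef
    have hm0 : 0 ≤ m := measureReal_nonneg
    have e1 : ∀ᶠ k : ℕ in atTop, Real.log (m + 2) / (τ / 2) ≤ k :=
      tendsto_natCast_atTop_atTop.eventually_ge_atTop _
    filter_upwards [e1, hlogNN (τ / (2 * p)) (by positivity)] with k hk1 hk2
    have hN1 : (1 : ℝ) ≤ NN n k := by exact_mod_cast NN_pos n k
    have hNp : (NN n k : ℝ) ≤ (NN n k : ℝ) ^ p := by
      conv_lhs => rw [← Real.rpow_one (NN n k : ℝ)]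
      exact Real.rpow_le_rpow_of_exponent_le hN1 (by linarith)
    have hNp1 : 1 ≤ (NN n k : ℝ) ^ p := hN1.trans hNp
    have h2 : (ν k).real Set.univ + NN n k ≤ (m + 2) * (NN n k : ℝ) ^ p := by
      have := hmassle k
      nlinarith
    have h3 : 0 < (ν k).real Set.univ + NN n k := by
      have := measureReal_nonneg (μ := ν k) (s := Set.univ)
      linarith
    have h4 := Real.log_le_log h3 h2
    rw [Real.log_mul (by positivity) (by positivity), Real.log_rpow (by linarith)] at h4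
    rw [div_le_iff₀ (by positivity)] at hk1
    have h5 : p * Real.log (NN n k) ≤ p * (τ / (2 * p) * k) := by gcongr
    have h6 : p * (τ / (2 * p) * k) = τ / 2 * k := by field_simp
    linarith
  have hexp2 : ∀ (k : ℕ) (c : ℝ), Real.exp (2 * k * c) = Real.exp (k * c) ^ 2 := by
    intro k c
    rw [← Real.exp_nat_mul]
    congr 1
    push_cast
    ring
  have hconv : ∀ (k : ℕ) (c : ℝ) (f : (Fin n → ℂ) → ℂ) (z : Fin n → ℂ), IsP k f →
      ‖f z‖ ≤ Real.exp (k * c) * Nm p μ f →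
      ‖f z‖ ^ 2 ≤ Real.exp (2 * k * c) * ∫ w, ‖f w‖ ^ 2 ∂(ν k) := by
    intro k c f z hf hle
    rw [hexp2]
    calc ‖f z‖ ^ 2 ≤ (Real.exp (k * c) * Nm p μ f) ^ 2 := by gcongr
      _ = Real.exp (k * c) ^ 2 * Nm p μ f ^ 2 := mul_pow _ _ _
      _ ≤ _ := by
          gcongr
          exact hsq k f hf
  have hpdd : ∀ k k', k ≤ k' → (Gk (ν k') R k).PosDef := by
    intro k k' hkk
    have hpsd := Gk_psd hR hK (hν0 k') k
    refine Matrix.PosDef.of_dotProduct_mulVec_pos hpsd.1 ?_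
    intro c hc
    have h1 : star c ⬝ᵥ (Gk (ν k') R k *ᵥ c) = qf (Gk (ν k') R k) c := rfl
    have h2 : qf (Gk (ν k') R k) c = ((∫ z, ‖sm (e n R k) c z‖ ^ 2 ∂(ν k') : ℝ) : ℂ) := by
      unfold Gk
      rw [qf_gram (ν k') (e n R k) (fun _ => 1) (Pool.Agent.H940R3.VD.hm R k)
        (hmb hR hK (hν0 k') k) measurable_const 1 (by simp)]
      simp [sm]
    rw [h1, h2, ← Complex.ofReal_zero, Complex.real_lt_real]
    have h3 := hsq k' _ ((isP_sm R k c).mono hkk)
    have h4 : 0 < Nm p μ (sm (e n R k) c) := by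
      rcases (Nm_nonneg p μ (sm (e n R k) c)).eq_or_lt with h5 | h5
      · exact absurd (hpos k c h5.symm) hc
      · exact h5
    have h5 : 0 < Nm p μ (sm (e n R k) c) ^ 2 := by positivity
    linarith
  have hcore := RZ_core' hn hKc hKne hR hKb hν0 hmass hδ0 hδ hpdd
    ⟨k₁, Cb, hCb0, fun k hk f hf z hz => hconv k Cb f z hf (hbd k hk f hf z hz)⟩
    (fun z c hc => by
      obtain ⟨k₀, hk₀⟩ := hB z c hc
      exact ⟨k₀, fun k hk f hf => hconv k c f z hf (hk₀ k hk f hf)⟩)
  intro τ hτ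
  obtain ⟨K1, hK1⟩ := eventually_atTop.mp (hlogNN (τ / (2 * p ^ 2)) (by positivity))
  filter_upwards [hcore (τ / p) (by positivity), eventually_ge_atTop K1] with k ⟨k', hk1, hk2, hgb⟩ hk3
  obtain ⟨hM, hZ⟩ := Z_of_gb hR hK (hν0 k') hgb
  refine ⟨hM, ?_⟩
  have hN1' : (1 : ℝ) ≤ NN n k' := by exact_mod_cast NN_pos n k'
  have hT := wm_le_Zkq hKne hKc hμ hp2 (hm k') (h0 k') (hG k') (hhp k') k
  have hTp : 0 < ((NN n k' : ℝ) ^ p) ^ NN n k := by positivity
  have h1 := hZ.trans hT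
  have hZp : 0 < Zkq p μ k := by
    rcases (Zkq_nonneg p μ k).eq_or_lt with h2 | h2
    · rw [← h2, Real.zero_rpow (by positivity), zero_mul] at h1
      have : 0 < maxVdm K k ^ 2 * Real.exp (-(τ / p * (k * NN n k))) := by positivity
      linarith
    · exact h2
  have h3 := Real.log_le_log (by positivity) h1
  rw [Real.log_mul (by positivity) (by positivity), Real.log_mul (by positivity)
    (by positivity), Real.log_pow, Real.log_exp, Real.log_rpow hZp, Real.log_rpow hTp,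
    Real.log_pow, Real.log_rpow (by linarith)] at h3
  have hN0 : (0 : ℝ) ≤ NN n k := Nat.cast_nonneg _
  have hlog' := hK1 k' (hk3.trans hk1)
  have hlog0 : 0 ≤ Real.log (NN n k') := Real.log_nonneg hN1'
  have hk'r : (k' : ℝ) ≤ 2 * k := by exact_mod_cast hk2
  have h4 : (1 - 2 / p) * (NN n k * (p * Real.log (NN n k'))) ≤
      NN n k * (p * Real.log (NN n k')) := by
    have h5 : 0 ≤ 2 / p := by positivity
    have h6 : 0 ≤ NN n k * (p * Real.log (NN n k')) := by positivity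
    nlinarith
  have h7 : NN n k * (p * Real.log (NN n k')) ≤ NN n k * (p * (τ / (2 * p ^ 2) * (2 * k))) := by
    have h8 : τ / (2 * p ^ 2) * k' ≤ τ / (2 * p ^ 2) * (2 * k) := by gcongr
    have h9 := hlog'.trans h8
    gcongr
  have h12 := mul_le_mul_of_nonneg_left (h3.trans (add_le_add_right (h4.trans h7) _))
    (by positivity : 0 ≤ p / 2)
  have e2 : p / 2 * (((2 : ℕ) : ℝ) * Real.log (maxVdm K k) + -(τ / p * (k * NN n k))) =
      p * Real.log (maxVdm K k) - τ / 2 * (k * NN n k) := by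
    push_cast
    field_simp
    ring
  have e3 : p / 2 * (2 / p * Real.log (Zkq p μ k) + NN n k * (p * (τ / (2 * p ^ 2) * (2 * k)))) =
      Real.log (Zkq p μ k) + τ / 2 * (k * NN n k) := by
    field_simp
  rw [e2, e3] at h12
  rw [← Real.exp_log hZp, Real.rpow_def_of_pos hM, ← Real.exp_add]
  apply Real.exp_le_exp.mpr
  nlinarith

theorem good_all {K : Set (Fin n → ℂ)} (hKne : K.Nonempty)
    (hKc : IsCompact K) {μ : Measure (Fin n → ℂ)} [IsFiniteMeasure μ] (hμ : μ Kᶜ = 0)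
    {q r : ℝ} (hq : 0 < q) (hr : 0 < r) (H : Good q K μ) : Good r K μ := by
  rcases le_total q r with h | h
  · exact good_mono hKne hKc hμ hq h H
  · exact good_anti hKne hKc hμ hr h H

/-- the main theorem -/
theorem main (hn : 1 ≤ n) {K : Set (Fin n → ℂ)} (hKc : IsCompact K)
    {μ : Measure (Fin n → ℂ)} [IsFiniteMeasure μ] (hμ : μ Kᶜ = 0) {δ : ℝ}
    (hδ : Tendsto (fun k => maxVdm K k ^ (1 / lk n k)) atTop (𝓝 δ)) {p q : ℝ} (hp : 0 < p)
    (hq : 0 < q) : CondRp p K μ ↔ CondZq q μ δ := by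
  rcases K.eq_empty_or_nonempty with hKe | hKne
  · subst hKe
    have hμ0 : μ = 0 := by
      rw [Set.compl_empty] at hμ
      exact Measure.measure_univ_eq_zero.mp hμ
    subst hμ0
    refine ⟨fun _ => ?_, fun _ => ?_⟩
    · have hmv : ∀ k, maxVdm (∅ : Set (Fin n → ℂ)) k = 0 := by
        intro k
        unfold maxVdm
        have : IsEmpty (Ix n k → (∅ : Set (Fin n → ℂ))) := by
          refine ⟨fun f => ?_⟩
          exact (f ⟨fun _ => 0, by simp⟩).2
        exact Real.iSup_of_isEmpty _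
      have hZ : ∀ k, Zkq q (0 : Measure (Fin n → ℂ)) k = 0 := by
        intro k
        unfold Zkq
        have : Nonempty (Ix n k) := ⟨⟨fun _ => 0, by simp⟩⟩
        have : (Measure.pi fun _ : Ix n k => (0 : Measure (Fin n → ℂ))) = 0 := by
          apply Measure.measure_univ_eq_zero.mp
          rw [Measure.pi_univ]
          simp
        rw [this]
        simp
      have h1 : (fun k => maxVdm (∅ : Set (Fin n → ℂ)) k ^ (1 / lk n k)) =ᶠ[atTop] fun _ => 0 := by
        filter_upwards [eventually_ge_atTop 1] with k hk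
        rw [hmv k]
        exact Real.zero_rpow (one_div_ne_zero (lk_pos hn hk).ne')
      have h2 : δ = 0 := tendsto_nhds_unique hδ (h1.tendsto)
      rw [h2]
      unfold CondZq
      have h3 : (fun k => Zkq q (0 : Measure (Fin n → ℂ)) k ^ (1 / (q * lk n k))) =ᶠ[atTop]
          fun _ => 0 := by
        filter_upwards [eventually_ge_atTop 1] with k hk
        rw [hZ k]
        exact Real.zero_rpow (one_div_ne_zero (by have := lk_pos hn hk; positivity))
      exact h3.tendsto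
    · intro f _ _ z
      rw [VKstar_empty hn z]
      simp
  obtain ⟨R₀, hR₀⟩ := hKc.isBounded.subset_closedBall (0 : Fin n → ℂ)
  set R := max R₀ 1 with hRdef
  have hR : 0 < R := lt_of_lt_of_le one_pos (le_max_right _ _)
  have hK : K ⊆ closedBall 0 R := hR₀.trans (closedBall_subset_closedBall (le_max_left _ _))
  have hδ0 : 0 ≤ δ := ge_of_tendsto' hδ fun k => Real.rpow_nonneg (maxVdm_nonneg k) _
  rcases hδ0.eq_or_lt with h | hδpos
  · rw [← h] at hδ ⊢
    refine ⟨fun _ => condZq_zero hn hKne hKc hμ hδ hq, fun _ => ?_⟩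
    intro f _ _ z
    rw [VKstar_top hn hR hKne hKc hδ z]
    simp
  constructor
  · intro hCR
    have h1 := bnd_of_condRp hn hR hK hμ hp hCR
    have h2 := Bnd_mono hK hμ hp (le_max_left p 3) h1
    have h3 := good_of_bnd hn hKne hKc hμ hδpos hδ
      (lt_of_lt_of_le (by norm_num) (le_max_right p 3)) h2
    exact condZq_of_good hn hKne hKc hμ hδ hq
      (good_all hKne hKc hμ (lt_of_lt_of_le hp (le_max_left p 3)) hq h3)
  · intro hZ
    have h1 := good_of_condZq hn hδpos hδ hq hZ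
    have hp' : 0 < min p 1 := lt_min hp one_pos
    have h2 := good_all hKne hKc hμ hq hp' h1
    have h3 := bnd_of_good hn hR hKne hKc hK hμ hp'
      (lt_of_le_of_lt (min_le_right p 1) one_lt_two) h2
    exact condRp_of_bnd hn hR hK hμ hp (Bnd_mono hK hμ hp' (min_le_left p 1) h3)

end Pool.Agent.KS6_48.VP
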