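import Pool.Agent.KS6_48.VP.Def

/-! Reformulation of condition (R) for the exponent `p`. -/

set_option autoImplicit false

open MeasureTheory Filter Topology Metric

namespace Pool.Agent.KS6_48.VP

open Pool.Agent.H940R3.VD Pool.Agent.H805R2.Fek

variable {n : ℕ}

/-- the (quasi)norm of `L^p(μ)` -/
noncomputable def Nm (p : ℝ) (μ : Measure (Fin n → ℂ)) (f : (Fin n → ℂ) → ℂ) : ℝ :=
  (∫ w, ‖f w‖ ^ p ∂μ) ^ (1 / p)

lemma Nm_nonneg (p : ℝ) (μ : Measure (Fin n → ℂ)) (f : (Fin n → ℂ) → ℂ) : 0 ≤ Nm p μ f :=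
  Real.rpow_nonneg (integral_nonneg fun _ => Real.rpow_nonneg (norm_nonneg _) _) _

lemma int_p {R : ℝ} {K : Set (Fin n → ℂ)} (hK : K ⊆ closedBall 0 R)
    {μ : Measure (Fin n → ℂ)} [IsFiniteMeasure μ] (hμ : μ Kᶜ = 0) {p : ℝ} (hp : 0 ≤ p)
    {f : (Fin n → ℂ) → ℂ} (hf : Continuous f) : Integrable (fun z => ‖f z‖ ^ p) μ := by
  have hc : Continuous fun z => ‖f z‖ ^ p := hf.norm.rpow_const fun _ => Or.inr hp
  obtain ⟨C, hC⟩ := (isCompact_closedBall (0 : Fin n → ℂ) R).exists_bound_of_continuousOn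
    hc.continuousOn
  refine Integrable.mono' (g := fun _ => C) (integrable_const _) hc.aestronglyMeasurable ?_
  have : ∀ᵐ z ∂μ, z ∈ K := by
    rw [ae_iff]
    exact hμ
  filter_upwards [this] with z hz
  exact hC z (hK hz)

lemma memLp_p {R : ℝ} {K : Set (Fin n → ℂ)} (hK : K ⊆ closedBall 0 R)
    {μ : Measure (Fin n → ℂ)} [IsFiniteMeasure μ] (hμ : μ Kᶜ = 0) {p : ENNReal}
    {f : (Fin n → ℂ) → ℂ} (hf : Continuous f) : MemLp f p μ := by
  obtain ⟨C, hC⟩ := (isCompact_closedBall (0 : Fin n → ℂ) R).exists_bound_of_continuousOn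
    hf.continuousOn
  apply MemLp.of_bound (C := C) hf.aestronglyMeasurable
  have : ∀ᵐ z ∂μ, z ∈ K := by
    rw [ae_iff]
    exact hμ
  filter_upwards [this] with z hz
  exact hC z (hK hz)

lemma eLpNorm_p {R : ℝ} {K : Set (Fin n → ℂ)} (hK : K ⊆ closedBall 0 R)
    {μ : Measure (Fin n → ℂ)} [IsFiniteMeasure μ] (hμ : μ Kᶜ = 0) {p : ℝ} (hp : 0 < p)
    {f : (Fin n → ℂ) → ℂ} (hf : Continuous f) :
    eLpNorm f (ENNReal.ofReal p) μ = ENNReal.ofReal (Nm p μ f) := by
  rw [(memLp_p hK hμ hf).eLpNorm_eq_integral_rpow_norm (by simpa using hp) ENNReal.ofReal_ne_top]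
  unfold Nm
  rw [ENNReal.toReal_ofReal hp.le, one_div]

lemma Nm_mono {R : ℝ} {K : Set (Fin n → ℂ)} (hK : K ⊆ closedBall 0 R)
    {μ : Measure (Fin n → ℂ)} [IsFiniteMeasure μ] (hμ : μ Kᶜ = 0) {p : ℝ} (hp : 0 < p)
    {f g : (Fin n → ℂ) → ℂ} (hf : Continuous f) (hg : Continuous g)
    (h : ∀ w ∈ K, ‖f w‖ ≤ ‖g w‖) : Nm p μ f ≤ Nm p μ g := by
  unfold Nm
  apply Real.rpow_le_rpow (integral_nonneg fun _ => by positivity) _ (by positivity)
  apply integral_mono_ae (int_p hK hμ hp.le hf) (int_p hK hμ hp.le hg)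
  have : ∀ᵐ z ∂μ, z ∈ K := by
    rw [ae_iff]
    exact hμ
  filter_upwards [this] with w hw
  exact Real.rpow_le_rpow (norm_nonneg _) (h w hw) hp.le

lemma Nm_smul (p : ℝ) (hp : 0 < p) (μ : Measure (Fin n → ℂ)) (f : (Fin n → ℂ) → ℂ) (c : ℂ) :
    Nm p μ (fun w => c * f w) = ‖c‖ * Nm p μ f := by
  unfold Nm
  have h1 : ∀ w, ‖c * f w‖ ^ p = ‖c‖ ^ p * ‖f w‖ ^ p := fun w => by
    rw [norm_mul, Real.mul_rpow (norm_nonneg _) (norm_nonneg _)]
  simp only [h1]
  rw [integral_const_mul, Real.mul_rpow (by positivity)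
    (integral_nonneg fun _ => by positivity), ← Real.rpow_mul (norm_nonneg _)]
  congr 1
  rw [mul_one_div, div_self hp.ne', Real.rpow_one]

/-- comparison of the norms for different exponents -/
lemma Nm_le_Nm {R : ℝ} {K : Set (Fin n → ℂ)} (hK : K ⊆ closedBall 0 R)
    {μ : Measure (Fin n → ℂ)} [IsFiniteMeasure μ] (hμ : μ Kᶜ = 0) {p r : ℝ} (hp : 0 < p)
    (hpr : p ≤ r) : ∃ C : ℝ, 1 ≤ C ∧ ∀ f : (Fin n → ℂ) → ℂ, Continuous f →
      Nm p μ f ≤ C * Nm r μ f := by
  rcases hpr.eq_or_lt with rfl | hlt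
  · exact ⟨1, le_rfl, fun f _ => by rw [one_mul]⟩
  have hr : 0 < r := hp.trans hlt
  set m := μ.real Set.univ with hm
  have hm0 : 0 ≤ m := measureReal_nonneg
  refine ⟨((m + 1) ^ (1 - p / r)) ^ (1 / p), ?_, ?_⟩
  · apply Real.one_le_rpow _ (by positivity)
    apply Real.one_le_rpow (by linarith)
    rw [sub_nonneg, div_le_one hr]
    exact hpr
  intro f hf
  have hH : ∫ w, ‖f w‖ ^ p ∂μ ≤ (∫ w, ‖f w‖ ^ r ∂μ) ^ (p / r) * (m + 1) ^ (1 - p / r) := by
    have hpq : (r / p).HolderConjugate (Real.conjExponent (r / p)) :=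
      Real.HolderConjugate.conjExponent ((one_lt_div hp).mpr hlt)
    have hc : Continuous fun z => ‖f z‖ ^ p := hf.norm.rpow_const fun _ => Or.inr hp.le
    have h1 := integral_mul_le_Lp_mul_Lq_of_nonneg (μ := μ) hpq
      (f := fun y => ‖f y‖ ^ p) (g := fun _ => (1 : ℝ))
      (Filter.Eventually.of_forall fun y => by positivity)
      (Filter.Eventually.of_forall fun y => zero_le_one) ?_ ?_
    · simp only [mul_one, Real.one_rpow, integral_const, smul_eq_mul] at h1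
      have h2 : ∀ y : Fin n → ℂ, (‖f y‖ ^ p) ^ (r / p) = ‖f y‖ ^ r := by
        intro y
        rw [← Real.rpow_mul (norm_nonneg _)]
        congr 1
        field_simp
      simp only [h2] at h1
      have h3 : 1 / (r / p) = p / r := by rw [one_div_div]
      have h4 : 1 / Real.conjExponent (r / p) = 1 - p / r := by
        have := hpq.inv_add_inv_eq_one
        rw [one_div]
        have h5 : (r / p)⁻¹ = p / r := by rw [inv_div]
        rw [h5] at this
        linarith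
      rw [h3, h4, ← hm] at h1
      refine h1.trans ?_
      apply mul_le_mul_of_nonneg_left _ (Real.rpow_nonneg
        (integral_nonneg fun _ => by positivity) _)
      exact Real.rpow_le_rpow hm0 (by linarith) (by rw [sub_nonneg, div_le_one hr]; exact hpr)
    · obtain ⟨C, hC⟩ := (isCompact_closedBall (0 : Fin n → ℂ) R).exists_bound_of_continuousOn
        hc.continuousOn
      apply MemLp.of_bound (C := C) hc.aestronglyMeasurable
      have : ∀ᵐ z ∂μ, z ∈ K := by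
        rw [ae_iff]
        exact hμ
      filter_upwards [this] with z hz
      exact hC z (hK hz)
    · exact memLp_const _
  have hI : 0 ≤ ∫ w, ‖f w‖ ^ r ∂μ := integral_nonneg fun _ => by positivity
  unfold Nm
  calc (∫ w, ‖f w‖ ^ p ∂μ) ^ (1 / p)
      ≤ ((∫ w, ‖f w‖ ^ r ∂μ) ^ (p / r) * (m + 1) ^ (1 - p / r)) ^ (1 / p) :=
        Real.rpow_le_rpow (integral_nonneg fun _ => by positivity) hH (by positivity)
    _ = ((m + 1) ^ (1 - p / r)) ^ (1 / p) * (∫ w, ‖f w‖ ^ r ∂μ) ^ (1 / r) := by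
        rw [Real.mul_rpow (by positivity) (by positivity), ← Real.rpow_mul hI, mul_comm]
        congr 2
        field_simp

/-- Quantitative form of condition (R). -/
def Bnd (p : ℝ) (K : Set (Fin n → ℂ)) (μ : Measure (Fin n → ℂ)) : Prop :=
  ∀ (z : Fin n → ℂ) (c : ℝ), VKstar K z < (c : EReal) → ∃ k₀ : ℕ, ∀ k ≥ k₀,
    ∀ f : (Fin n → ℂ) → ℂ, IsP k f → ‖f z‖ ≤ Real.exp (k * c) * Nm p μ f

lemma Bnd_mono {R : ℝ} {K : Set (Fin n → ℂ)} (hK : K ⊆ closedBall 0 R)
    {μ : Measure (Fin n → ℂ)} [IsFiniteMeasure μ] (hμ : μ Kᶜ = 0) {p r : ℝ} (hp : 0 < p)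
    (hpr : p ≤ r) (H : Bnd p K μ) : Bnd r K μ := by
  obtain ⟨C, hC1, hC⟩ := Nm_le_Nm hK hμ hp hpr
  intro z c hc
  obtain ⟨c', hc'1, hc'2⟩ := EReal.lt_iff_exists_real_btwn.mp hc
  have hc'c : c' < c := by exact_mod_cast hc'2
  obtain ⟨k₀, hk₀⟩ := H z c' hc'1
  obtain ⟨k₁, hk₁⟩ := exists_nat_ge (Real.log C / (c - c'))
  refine ⟨max k₀ k₁, fun k hk f hf => ?_⟩
  have h1 := hk₀ k ((le_max_left _ _).trans hk) f hf
  have h2 := hC f hf.continuous
  have h3 : C ≤ Real.exp (k * (c - c')) := by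
    rw [← Real.log_le_iff_le_exp (by linarith)]
    rw [div_le_iff₀ (by linarith)] at hk₁
    refine hk₁.trans ?_
    have : (k₁ : ℝ) ≤ k := by exact_mod_cast (le_max_right _ _).trans hk
    gcongr
  have hN := Nm_nonneg r μ f
  calc ‖f z‖ ≤ Real.exp (k * c') * Nm p μ f := h1
    _ ≤ Real.exp (k * c') * (C * Nm r μ f) := by gcongr
    _ ≤ Real.exp (k * c') * (Real.exp (k * (c - c')) * Nm r μ f) := by gcongr
    _ = Real.exp (k * c) * Nm r μ f := by
        rw [← mul_assoc, ← Real.exp_add]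
        congr 2
        ring

theorem condRp_of_bnd (hn : 1 ≤ n) {R : ℝ} (hR : 0 < R) {K : Set (Fin n → ℂ)}
    (hK : K ⊆ closedBall 0 R)
    {μ : Measure (Fin n → ℂ)} [IsFiniteMeasure μ] (hμ : μ Kᶜ = 0) {p : ℝ} (hp : 0 < p)
    (H : Bnd p K μ) : CondRp p K μ := by
  intro P hP hdeg z
  by_contra hcon
  push Not at hcon
  obtain ⟨b, hb1, hb2⟩ := exists_between hcon
  have hbtop : b ≠ ⊤ := (lt_of_lt_of_le hb2 le_top).ne
  have hb0 : 0 < b.toReal := by
    apply ENNReal.toReal_pos _ hbtop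
    exact (lt_of_le_of_lt zero_le hb1).ne'
  set c := Real.log b.toReal with hc
  have hbc : b = ((c : EReal)).exp := by
    rw [EReal.exp_coe, hc, Real.exp_log hb0, ENNReal.ofReal_toReal hbtop]
  rw [hbc, EReal.exp_lt_exp_iff] at hb1
  obtain ⟨k₀, hk₀⟩ := H z c hb1
  have hev : ∀ᶠ j in atTop, (‖MvPolynomial.eval z (P j)‖ₑ /
        eLpNorm (fun w => MvPolynomial.eval w (P j)) (ENNReal.ofReal p) μ) ^
          (1 / ((P j).totalDegree : ℝ)) ≤ b := by
    filter_upwards [hdeg.eventually_ge_atTop k₀, hdeg.eventually_ge_atTop 1] with j hj hj1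
    set d := (P j).totalDegree with hd
    have hPd : IsP d (fun w => MvPolynomial.eval w (P j)) := ⟨P j, le_rfl, fun _ => rfl⟩
    have h1 := hk₀ d hj _ hPd
    have h3 : ‖MvPolynomial.eval z (P j)‖ₑ /
        eLpNorm (fun w => MvPolynomial.eval w (P j)) (ENNReal.ofReal p) μ ≤
        ENNReal.ofReal (Real.exp (d * c)) := by
      rw [eLpNorm_p hK hμ hp hPd.continuous]
      apply ENNReal.div_le_of_le_mul
      rw [← ENNReal.ofReal_mul (Real.exp_pos _).le, ← ofReal_norm]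
      exact ENNReal.ofReal_le_ofReal h1
    have hd0 : (0 : ℝ) < d := by exact_mod_cast hj1
    calc (‖MvPolynomial.eval z (P j)‖ₑ /
        eLpNorm (fun w => MvPolynomial.eval w (P j)) (ENNReal.ofReal p) μ) ^ (1 / (d : ℝ))
        ≤ (ENNReal.ofReal (Real.exp (d * c))) ^ (1 / (d : ℝ)) :=
          ENNReal.rpow_le_rpow h3 (by positivity)
      _ = b := by
          rw [ENNReal.ofReal_rpow_of_pos (Real.exp_pos _), ← Real.exp_mul, hbc, EReal.exp_coe]
          congr 2
          field_simp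
  exact absurd hb2 (not_lt.mpr (limsup_le_of_le (h := hev)))

theorem bnd_of_condRp (hn : 1 ≤ n) {R : ℝ} (hR : 0 < R) {K : Set (Fin n → ℂ)}
    (hK : K ⊆ closedBall 0 R)
    {μ : Measure (Fin n → ℂ)} [IsFiniteMeasure μ] (hμ : μ Kᶜ = 0) {p₀ : ℝ} (hp₀ : 0 < p₀)
    (hCR : CondRp p₀ K μ) : Bnd p₀ K μ := by
  intro z c hc
  obtain ⟨c', hc'1, hc'2⟩ := EReal.lt_iff_exists_real_btwn.mp hc
  have hc'c : c' < c := by exact_mod_cast hc'2
  set η := c - c' with hη
  obtain ⟨ℓ, hℓ0, hℓd, hℓK, hℓz⟩ := exists_ell hn hR z (show 0 < η by linarith)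
  by_contra hcon
  push Not at hcon
  choose kk hkk f hf hfz using hcon
  choose p hp hp2 using hf
  have hpz : ∀ j, p j ≠ 0 := by
    intro j h
    have h1 := hfz j
    rw [← hp2 j z, h] at h1
    have h2 : 0 ≤ Real.exp ((kk j) * c) * Nm p₀ μ (f j) :=
      mul_nonneg (Real.exp_pos _).le (Nm_nonneg _ _ _)
    simp at h1
    linarith
  set q : ℕ → MvPolynomial (Fin n) ℂ := fun j => p j * ℓ ^ (kk j - (p j).totalDegree) with hq
  have hqdeg : ∀ j, (q j).totalDegree = kk j := by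
    intro j
    rw [hq]
    simp only
    rw [MvPolynomial.totalDegree_mul_of_isDomain (hpz j) (pow_ne_zero _ hℓ0),
      totalDegree_pow_dom hℓ0 hℓd]
    have := hp j
    omega
  have hq0 : ∀ j, q j ≠ 0 := fun j => mul_ne_zero (hpz j) (pow_ne_zero _ hℓ0)
  have hdeg : Tendsto (fun j => (q j).totalDegree) atTop atTop := by
    simp_rw [hqdeg]
    exact tendsto_atTop_mono hkk tendsto_id
  have hlim := hCR q hq0 hdeg z
  have hlt : limsup (fun j => (‖MvPolynomial.eval z (q j)‖ₑ /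
      eLpNorm (fun w => MvPolynomial.eval w (q j)) (ENNReal.ofReal p₀) μ) ^
        (1 / ((q j).totalDegree : ℝ))) atTop <
      ((c' : EReal)).exp := lt_of_le_of_lt hlim (EReal.exp_lt_exp_iff.mpr hc'1)
  have hev := eventually_lt_of_limsup_lt hlt
  obtain ⟨j, hj1, hj2⟩ := (hev.and (eventually_ge_atTop 1)).exists
  rw [hqdeg j] at hj1
  set k := kk j with hk
  have hk1 : 1 ≤ k := le_trans hj2 (hkk j)
  have hkr : (0 : ℝ) < k := by exact_mod_cast hk1
  have hP1 : IsP k (f j) := ⟨p j, hp j, hp2 j⟩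
  have hP2 : IsP k (fun w => MvPolynomial.eval w (q j)) := ⟨q j, (hqdeg j).le, fun _ => rfl⟩
  set Ip := Nm p₀ μ (f j) with hIp
  set Iq := Nm p₀ μ (fun w => MvPolynomial.eval w (q j)) with hIq
  have hIp0 : 0 ≤ Ip := Nm_nonneg _ _ _
  have hIq0 : 0 ≤ Iq := Nm_nonneg _ _ _
  have hIle : Iq ≤ Ip := by
    apply Nm_mono hK hμ hp₀ hP2.continuous hP1.continuous
    intro w hw
    have h1 := hℓK w (hK hw)
    rw [hq]
    simp only
    rw [map_mul, map_pow, hp2 j w, norm_mul, norm_pow]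
    calc ‖f j w‖ * ‖MvPolynomial.eval w ℓ‖ ^ (kk j - (p j).totalDegree) ≤ ‖f j w‖ * 1 := by
          gcongr
          exact pow_le_one₀ (norm_nonneg _) h1
      _ = _ := mul_one _
  have hqz : Real.exp (k * c') * Iq ≤ ‖MvPolynomial.eval z (q j)‖ := by
    have h1 := hfz j
    have h2 : ‖MvPolynomial.eval z (q j)‖ = ‖f j z‖ *
        ‖MvPolynomial.eval z ℓ‖ ^ (kk j - (p j).totalDegree) := by
      rw [hq]
      simp only
      rw [map_mul, map_pow, hp2 j z, norm_mul, norm_pow]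
    have h3 : Real.exp (-η * k) ≤ ‖MvPolynomial.eval z ℓ‖ ^ (kk j - (p j).totalDegree) := by
      calc Real.exp (-η * k) ≤ Real.exp (-η) ^ (kk j - (p j).totalDegree) := by
            rw [← Real.exp_nat_mul]
            apply Real.exp_le_exp.mpr
            have h4 : ((kk j - (p j).totalDegree : ℕ) : ℝ) ≤ k := by
              rw [hk]
              exact_mod_cast Nat.sub_le _ _
            have : 0 < η := by linarith
            nlinarith
        _ ≤ _ := by gcongr
    rw [h2]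
    calc Real.exp (k * c') * Iq ≤ Real.exp (k * c') * Ip := by gcongr
      _ = (Real.exp (k * c) * Ip) * Real.exp (-η * k) := by
          have : Real.exp (k * c') = Real.exp (k * c) * Real.exp (-η * k) := by
            rw [← Real.exp_add]; congr 1; rw [hη]; ring
          rw [this]; ring
      _ ≤ _ := by
          apply mul_le_mul h1.le h3 (Real.exp_pos _).le (norm_nonneg _)
  have hqz0 : MvPolynomial.eval z (q j) ≠ 0 := by
    rw [hq]
    simp only
    rw [map_mul, map_pow]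
    apply mul_ne_zero
    · rw [hp2 j z]
      intro h0
      have h1 := hfz j
      rw [h0, norm_zero] at h1
      have h2 : 0 ≤ Real.exp ((kk j) * c) * Nm p₀ μ (f j) :=
        mul_nonneg (Real.exp_pos _).le hIp0
      linarith
    · apply pow_ne_zero
      intro h0
      rw [h0, norm_zero] at hℓz
      have := Real.exp_pos (-η)
      linarith
  have h6 : ENNReal.ofReal (Real.exp (k * c')) ≤ ‖MvPolynomial.eval z (q j)‖ₑ /
      eLpNorm (fun w => MvPolynomial.eval w (q j)) (ENNReal.ofReal p₀) μ := by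
    rw [eLpNorm_p hK hμ hp₀ hP2.continuous, ENNReal.le_div_iff_mul_le
      (Or.inr (by simpa using hqz0))
      (Or.inl ENNReal.ofReal_ne_top), ← ENNReal.ofReal_mul (Real.exp_pos _).le, ← ofReal_norm]
    exact ENNReal.ofReal_le_ofReal hqz
  have h7 : ((c' : EReal)).exp ≤ (‖MvPolynomial.eval z (q j)‖ₑ /
      eLpNorm (fun w => MvPolynomial.eval w (q j)) (ENNReal.ofReal p₀) μ) ^ (1 / (k : ℝ)) := by
    calc ((c' : EReal)).exp = (ENNReal.ofReal (Real.exp (k * c'))) ^ (1 / (k : ℝ)) := by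
          rw [ENNReal.ofReal_rpow_of_pos (Real.exp_pos _), ← Real.exp_mul, EReal.exp_coe]
          congr 2
          field_simp
      _ ≤ _ := ENNReal.rpow_le_rpow h6 (by positivity)
  exact absurd hj1 (not_lt.mpr h7)

end Pool.Agent.KS6_48.VP
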