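import Pool.Agent.KS6_48.VP.Auer

/-! Lower bounds for the Gram determinants of a sequence of measures with Bergman functions of
extremal growth (adapted from the library module `H940R3.VD.Fin2`, which treats one measure). -/

set_option autoImplicit false

open Matrix MeasureTheory Metric Filter Topology
open scoped ComplexOrder MatrixOrder Matrix.Norms.L2Operator

namespace Pool.Agent.KS6_48.VP

open Pool.Agent.H940R3.VD Pool.Agent.H805R2.Gram Pool.Agent.H805R2.Fek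

variable {n : ℕ}

/-- the functions `U_k`, derived from the Bergman functions of `μ` -/
lemma exists_U' (hn : 1 ≤ n) {R : ℝ} (hR : 0 < R) {K : Set (Fin n → ℂ)} (hK : K ⊆ closedBall 0 R)
    {μ : ℕ → Measure (Fin n → ℂ)} [∀ k, IsFiniteMeasure (μ k)] (hμ : ∀ k, μ k Kᶜ = 0)
    (hpd : ∀ k, (Gk (μ k) R k).PosDef)
    (hU : ∃ (k₁ : ℕ) (Cb : ℝ), 0 ≤ Cb ∧ ∀ k ≥ k₁, ∀ f : (Fin n → ℂ) → ℂ, IsP k f →
      ∀ z ∈ closedBall (0 : Fin n → ℂ) R,
        ‖f z‖ ^ 2 ≤ Real.exp (2 * k * Cb) * ∫ w, ‖f w‖ ^ 2 ∂(μ k))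
    (hRl : ∀ (z : Fin n → ℂ) (c : ℝ), VKstar K z < (c : EReal) →
      ∃ k₀ : ℕ, ∀ k ≥ k₀, ∀ f : (Fin n → ℂ) → ℂ, IsP k f →
        ‖f z‖ ^ 2 ≤ Real.exp (2 * k * c) * ∫ w, ‖f w‖ ^ 2 ∂(μ k)) :
    ∃ (U : ℕ → (Fin n → ℂ) → ℝ) (Cb : ℝ) (k₁ : ℕ),
      (∀ k, Measurable (U k)) ∧ (∀ k z, 0 ≤ U k z) ∧ (∀ k z, U k z ≤ Cb) ∧
      (∀ k ≥ k₁, ∀ f, IsP k f → ∀ z ∈ closedBall (0 : Fin n → ℂ) R,
        ‖f z‖ ^ 2 ≤ Real.exp (2 * k * U k z) * ∫ w, ‖f w‖ ^ 2 ∂(μ k)) ∧
      (∀ z ∈ closedBall (0 : Fin n → ℂ) R, ∀ c : ℝ, VKstar K z < (c : EReal) →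
        ∀ᶠ k in atTop, U k z ≤ c) := by
  classical
  obtain ⟨k₁, Cb, hCb0, hbd⟩ := hU
  have hBex : ∀ k, ∃ B, Bg (μ k) (e n R k) (fun _ => 1) B := by
    intro k
    obtain ⟨B, hB, _⟩ := bg_exists (μ k) (e n R k) (hm R k) (hmb hR hK (hμ k) k) (fun _ => 1)
      measurable_const 1 (by simp) (by simp) (hpd k) (fun _ => 0) measurable_const 0 (by simp)
    exact ⟨B, hB⟩
  choose B hB using hBex
  have hqf : ∀ k c, (qf (Pool.Agent.H805R2.Gram.gram (μ k) (e n R k) (fun _ => 1)) c).re =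
      ∫ z, ‖sm (e n R k) c z‖ ^ 2 ∂(μ k) := fun k c => qf_Gk hR hK (hμ k) k c
  have hBle : ∀ k z c', (∀ f, IsP k f → ‖f z‖ ^ 2 ≤ Real.exp (2 * k * c') * ∫ w, ‖f w‖ ^ 2 ∂(μ k)) →
      B k z ≤ Real.exp (2 * k * c') := by
    intro k z c' h
    apply (hB k).le z _ (Real.exp_pos _).le
    intro c
    rw [hqf, mul_one]
    exact h _ (isP_sm R k c)
  set u : ℕ → (Fin n → ℂ) → ℝ := fun k z => max 0 (Real.log (B k z) / (2 * k)) with hu
  have hum : ∀ k, Measurable (u k) := by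
    intro k
    exact measurable_const.max ((Real.measurable_log.comp (hB k).meas).div_const _)
  have hule : ∀ k, 1 ≤ k → ∀ z c', 0 ≤ c' →
      (∀ f, IsP k f → ‖f z‖ ^ 2 ≤ Real.exp (2 * k * c') * ∫ w, ‖f w‖ ^ 2 ∂(μ k)) → u k z ≤ c' := by
    intro k hk z c' hc' h
    have h1 := hBle k z c' h
    have hk0 : (0 : ℝ) < k := by exact_mod_cast hk
    apply max_le hc'
    rw [div_le_iff₀ (by positivity)]
    rcases ((hB k).nonneg z).eq_or_lt with h2 | h2
    · rw [← h2, Real.log_zero]; positivity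
    · rw [Real.log_le_iff_le_exp h2]
      have : c' * (2 * k) = 2 * k * c' := by ring
      rw [this]
      exact h1
  refine ⟨fun k z => if max k₁ 1 ≤ k then (closedBall (0 : Fin n → ℂ) R).indicator (u k) z else 0,
    Cb, max k₁ 1, ?_, ?_, ?_, ?_, ?_⟩
  · intro k
    by_cases h : max k₁ 1 ≤ k
    · simp only [if_pos h]
      exact (hum k).indicator measurableSet_closedBall
    · simp only [if_neg h]
      exact measurable_const
  · intro k z
    by_cases h : max k₁ 1 ≤ k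
    · simp only [if_pos h]
      exact Set.indicator_nonneg (fun _ _ => le_max_left _ _) z
    · simp only [if_neg h]
      exact le_rfl
  · intro k z
    by_cases h : max k₁ 1 ≤ k
    · simp only [if_pos h]
      by_cases hz : z ∈ closedBall (0 : Fin n → ℂ) R
      · rw [Set.indicator_of_mem hz]
        exact hule k ((le_max_right _ _).trans h) z Cb hCb0
          (fun f hf => hbd k ((le_max_left _ _).trans h) f hf z hz)
      · rw [Set.indicator_of_notMem hz]; exact hCb0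
    · simp only [if_neg h]; exact hCb0
  · intro k hk f hf z hz
    simp only [if_pos hk]
    rw [Set.indicator_of_mem hz]
    obtain ⟨c, hc⟩ := hf.coef hR
    have h1 := (hB k).ge z c
    rw [hqf, mul_one, ← hc] at h1
    have h2 : ∫ w, ‖sm (e n R k) c w‖ ^ 2 ∂(μ k) = ∫ w, ‖f w‖ ^ 2 ∂(μ k) := by
      congr 1
      funext w
      rw [← hc]
    rw [h2] at h1
    refine h1.trans ?_
    apply mul_le_mul_of_nonneg_right _ (integral_nonneg fun _ => by positivity)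
    have hk0 : (0 : ℝ) < k := by
      have : 1 ≤ k := (le_max_right _ _).trans hk
      exact_mod_cast this
    rcases ((hB k).nonneg z).eq_or_lt with h3 | h3
    · rw [← h3]; exact (Real.exp_pos _).le
    · rw [← Real.log_le_iff_le_exp h3]
      have h4 : Real.log (B k z) / (2 * k) ≤ u k z := le_max_right _ _
      rw [div_le_iff₀ (by positivity)] at h4
      linarith
  · intro z hz c hc
    have hc0 : 0 ≤ c := by
      have h1 : (0 : EReal) ≤ (c : EReal) := (VKstar_nonneg hn hR hK z).trans hc.le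
      exact_mod_cast h1
    obtain ⟨k₀, hk₀⟩ := hRl z c hc
    filter_upwards [eventually_ge_atTop k₀, eventually_ge_atTop 1] with k h1 h2
    by_cases h : max k₁ 1 ≤ k
    · simp only [if_pos h]
      rw [Set.indicator_of_mem hz]
      exact hule k h2 z c hc0 (fun f hf => hk₀ k h1 f hf)
    · simp only [if_neg h]; exact hc0

theorem RZ_core' (hn : 1 ≤ n) {K : Set (Fin n → ℂ)} (hKc : IsCompact K) (hKne : K.Nonempty)
    {R : ℝ} (hR : 0 < R) (hKb : K ⊆ ball 0 R)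
    {μ : ℕ → Measure (Fin n → ℂ)} [∀ k, IsFiniteMeasure (μ k)] (hμ : ∀ k, μ k Kᶜ = 0)
    (hmass : ∀ τ : ℝ, 0 < τ → ∀ᶠ k : ℕ in atTop,
      Real.log ((μ k).real Set.univ + NN n k) ≤ τ * k)
    {δ : ℝ} (hδ0 : 0 < δ)
    (hδ : Tendsto (fun k => maxVdm K k ^ (1 / lk n k)) atTop (𝓝 δ))
    (hpdd : ∀ k k', k ≤ k' → (Gk (μ k') R k).PosDef)
    (hU : ∃ (k₁ : ℕ) (Cb : ℝ), 0 ≤ Cb ∧ ∀ k ≥ k₁, ∀ f : (Fin n → ℂ) → ℂ, IsP k f →
      ∀ z ∈ closedBall (0 : Fin n → ℂ) R,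
        ‖f z‖ ^ 2 ≤ Real.exp (2 * k * Cb) * ∫ w, ‖f w‖ ^ 2 ∂(μ k))
    (hRl : ∀ (z : Fin n → ℂ) (c : ℝ), VKstar K z < (c : EReal) →
      ∃ k₀ : ℕ, ∀ k ≥ k₀, ∀ f : (Fin n → ℂ) → ℂ, IsP k f →
        ‖f z‖ ^ 2 ≤ Real.exp (2 * k * c) * ∫ w, ‖f w‖ ^ 2 ∂(μ k)) :
    ∀ τ : ℝ, 0 < τ → ∀ᶠ k : ℕ in atTop, ∃ k' : ℕ, k ≤ k' ∧ k' ≤ 2 * k ∧ GB K R τ (μ k') k := by
  have hK : K ⊆ closedBall 0 R := hKb.trans ball_subset_closedBall
  have hfk := fk_all hn hR hKc hKne hδ0 hδ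
  obtain ⟨C, hC, hg⟩ := gr_all hn hKc hKne hδ0 hδ (R + 1)
  have hBd : Bd K (R + 1) C := ⟨VK_nonneg hn hR hK, VK_of_gr hC hg⟩
  obtain ⟨U, Cb, k₁, hUm, hU0, hUCb, hUb, hUlim⟩ :=
    exists_U' hn hR hK hμ (fun k => hpdd k k le_rfl) hU hRl
  choose xF hxF using hfk
  intro τ hτ
  set a : ℝ := (2 : ℝ) ^ n with ha
  have ha1 : 1 ≤ a := one_le_pow₀ (by norm_num)
  set τ₁ := τ / (40 * a ^ 2) with hτ₁
  have hτ₁0 : 0 < τ₁ := by positivity
  obtain ⟨ε₀, hε₀, hsub₀, hev⟩ := outer hn hR hKc hKb hδ0 (fun k => ⟨xF k, hxF k⟩) hδ hτ₁0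
  set ε := ε₀ / 3 with hε
  have hεp : 0 < ε := by positivity
  set Y := cthickening (2 * ε) K with hY
  set K₃ := cthickening ε₀ K with hK₃
  have hmemc : ∀ δ' : ℝ, 0 ≤ δ' → ∀ z, z ∈ cthickening δ' K ↔ ∃ x ∈ K, dist z x ≤ δ' := by
    intro δ' hδ' z
    rw [hKc.cthickening_eq_biUnion_closedBall hδ']
    simp
  have hYc : IsCompact Y := hKc.cthickening
  have hK₃c : IsCompact K₃ := hKc.cthickening
  have hYm : MeasurableSet Y := hYc.isClosed.measurableSet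
  have hYf : volume Y ≠ ⊤ := hYc.measure_lt_top.ne
  have hYK : ∀ ξ ∈ ball (0 : Fin n → ℂ) ε, ∀ y ∈ Y, y + ξ ∈ K₃ := by
    intro ξ hξ y hy
    rw [mem_ball_zero_iff] at hξ
    obtain ⟨x, hx, hxy⟩ := (hmemc _ (by positivity) y).mp hy
    refine (hmemc _ hε₀.le _).mpr ⟨x, hx, ?_⟩
    rw [dist_eq_norm] at hxy ⊢
    calc ‖y + ξ - x‖ = ‖(y - x) + ξ‖ := by congr 1; abel
      _ ≤ ‖y - x‖ + ‖ξ‖ := norm_add_le _ _
      _ ≤ ε₀ := by linarith
  have hY0 : ∀ y ∈ Y, ‖y‖ ≤ R := by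
    intro y hy
    have h1 := hsub₀ (hYK 0 (mem_ball_self hεp) y hy)
    rwa [add_zero, mem_closedBall_zero_iff] at h1
  have hYR : ∀ ξ ∈ ball (0 : Fin n → ℂ) ε, ∀ y ∈ Y, ‖y + ξ‖ ≤ R := by
    intro ξ hξ y hy
    have h1 := hsub₀ (hYK ξ hξ y hy)
    rwa [mem_closedBall_zero_iff] at h1
  have hKY : ∀ z ∈ K, ∀ w, ‖w - z‖ ≤ 2 * ε → w ∈ Y := by
    intro z hz w hw
    exact (hmemc _ (by positivity) w).mpr ⟨z, hz, by rwa [dist_eq_norm]⟩
  have hYp : 0 < (volume Y).toReal := by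
    obtain ⟨z₀, hz₀⟩ := hKne
    apply ENNReal.toReal_pos _ hYf
    have h1 : ball z₀ (2 * ε) ⊆ Y := by
      intro w hw
      apply hKY z₀ hz₀
      rw [mem_ball, dist_eq_norm] at hw
      exact hw.le
    exact (lt_of_lt_of_le (measure_ball_pos _ _ (by positivity)) (measure_mono h1)).ne'
  -- Bergman functions of Y
  have hRfex : ∀ k', ∃ B, Bg (volume.restrict Y) (mx R k' 0) (fun _ => 1) B := by
    intro k'
    have : IsFiniteMeasure (volume.restrict Y) := ⟨by simpa using hYf.lt_top⟩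
    have hYR0 : ∀ y ∈ Y, ‖y + (0 : Fin n → ℂ)‖ ≤ R := fun y hy => by
      rw [add_zero]; exact hY0 y hy
    have hpd' : (GG R k' Y 0 (fun _ => 1)).PosDef :=
      GG_posDef (K := K) (r := ε) (ω := 1) hR hYm hYf hYR0 measurable_const (W := 1) (by simp)
        (by simp) hεp one_pos (by
          intro z hz t ht
          rw [mem_ball_zero_iff] at ht
          refine ⟨hKY z hz _ ?_, le_rfl⟩
          have : z + t - 0 - z = t := by abel
          rw [this]
          linarith) (hxF k').mem (hxF k').ne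
    obtain ⟨B, hB, _⟩ := bg_exists (volume.restrict Y) (mx R k' 0) (mx_meas R k' 0)
      (mx_bd hR k' hYm hYR0) (fun _ => 1) measurable_const 1 (by simp) (by simp) hpd'
      (fun _ => 0) measurable_const 0 (by simp)
    exact ⟨B, hB⟩
  choose Rf hRf using hRfex
  set vW := (volume (ball (0 : Fin n → ℂ) ε)).toReal with hvW
  have hvW0 : 0 < vW := ENNReal.toReal_pos (measure_ball_pos _ _ hεp).ne' measure_ball_lt_top.ne
  obtain ⟨m, hm, hm2⟩ := DK hR hBd xF hxF (R' := R) (by linarith) (η := τ₁ * vW) (by positivity)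
  set v := vF R (xF m) with hv
  have hvc : Continuous v := vF_cont (n := n) R (xF m)
  have hv0 : ∀ z, 0 ≤ v z := vF_nonneg R (xF m)
  have hm0 : (0 : ℝ) < m := by exact_mod_cast hm
  have hevU := DU hBd (R' := R) (by linarith) (w := fun z => v z / m)
    (hvc.measurable.div_const _) (fun z => div_nonneg (hv0 z) hm0.le) hm2 hUm hUCb hUlim
  obtain ⟨V₀, hV₀⟩ := (isCompact_closedBall (0 : Fin n → ℂ) R).exists_bound_of_continuousOn
    hvc.continuousOn
  set V := max V₀ 0 with hVdef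
  have hV0 : 0 ≤ V := le_max_right _ _
  have hVD : ∀ z ∈ closedBall (0 : Fin n → ℂ) R, v z ≤ V := fun z hz =>
    ((le_abs_self _).trans (hV₀ z hz)).trans (le_max_left _ _)
  -- the radius r
  obtain ⟨r₀, hr₀, hr₀sub⟩ := hKc.exists_cthickening_subset_open
    (isOpen_lt hvc continuous_const) (show K ⊆ {z | v z < τ₁} from fun z hz => by
      have : v z = 0 := vF_zero (hxF m) hz
      change v z < τ₁
      rw [this]; exact hτ₁0)
  set r := min r₀ ε with hr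
  have hrp : 0 < r := lt_min hr₀ hεp
  have hsub : ∀ ξ ∈ ball (0 : Fin n → ℂ) ε, ∀ z ∈ K, ∀ t ∈ ball (0 : Fin n → ℂ) r,
      z + t - ξ ∈ Y ∧ v (z + t) ≤ τ₁ := by
    intro ξ hξ z hz t ht
    rw [mem_ball_zero_iff] at hξ ht
    have hrε : r ≤ ε := min_le_right _ _
    have hrr : r ≤ r₀ := min_le_left _ _
    constructor
    · apply hKY z hz
      have : z + t - ξ - z = t - ξ := by abel
      rw [this]
      exact (norm_sub_le _ _).trans (by linarith)
    · have h1 : z + t ∈ cthickening r₀ K := by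
        refine (hmemc _ hr₀.le _).mpr ⟨z, hz, ?_⟩
        rw [dist_eq_norm, add_sub_cancel_left]
        linarith
      have h2 : v (z + t) < τ₁ := hr₀sub h1
      exact h2.le
  set c₁ := Real.log (volume Y).toReal - Real.log (volume (ball (0 : Fin n → ℂ) r)).toReal with hc₁
  have e5 : ∀ᶠ k : ℕ in atTop, c₁ + Real.log (NN n k) ≤ τ₁ * k := by
    have h1 := log_NN n (C := 0) le_rfl (τ := τ₁ / 2) (by positivity)
    have h2 : ∀ᶠ k : ℕ in atTop, c₁ / (τ₁ / 2) ≤ k :=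
      tendsto_natCast_atTop_atTop.eventually_ge_atTop _
    filter_upwards [h1, h2] with k hk1 hk2
    rw [zero_add] at hk1
    rw [div_le_iff₀ (by positivity)] at hk2
    linarith
  have e6 := hmass (τ₁ / 2) (by positivity)
  obtain ⟨K1, hK1⟩ := eventually_atTop.mp hev
  obtain ⟨K2, hK2⟩ := eventually_atTop.mp hevU
  obtain ⟨K3, hK3⟩ := eventually_atTop.mp e5
  obtain ⟨K4, hK4⟩ := eventually_atTop.mp e6
  filter_upwards [eventually_ge_atTop K1, eventually_ge_atTop K2, eventually_ge_atTop K3,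
    eventually_ge_atTop K4,
    eventually_ge_atTop (2 * m), eventually_ge_atTop k₁, eventually_ge_atTop 1]
    with k hk1 hk2 hk3 hk4 hk5 hk6 hk7
  have hkr : (1 : ℝ) ≤ k := by exact_mod_cast hk7
  set N := NN n (2 * k) with hN
  set J := k / m with hJ
  have hJm : J * m ≤ k := Nat.div_mul_le_self _ _
  have hJ1 : 1 ≤ J := by
    rw [hJ]
    exact (Nat.one_le_div_iff (by omega)).mpr (by omega)
  have hJk : J ≤ k := Nat.div_le_self _ _
  set kk : ℕ → ℕ := fun j => 2 * k - (j + 1) * m with hkk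
  have hkk1 : ∀ j < J, k ≤ kk j ∧ kk j ≤ 2 * k := by
    intro j hj
    have h1 : (j + 1) * m ≤ k := (Nat.mul_le_mul_right m (by omega)).trans hJm
    rw [hkk]
    simp only
    omega
  -- the chain
  have hx := hxF (2 * k)
  obtain ⟨x₃, hx₃⟩ := fk_of (K := K₃) hK₃c (fun j => self_subset_cthickening K (hx.mem j)) hx.ne
  have hMx : 0 < ‖(ev (e n R (2 * k)) (xF (2 * k))).det‖ := norm_pos_iff.mpr hx.ne
  have hMx₃ : 0 < ‖(ev (e n R (2 * k)) x₃).det‖ := norm_pos_iff.mpr hx₃.ne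
  have hout : Real.log ‖(ev (e n R (2 * k)) x₃).det‖ -
      Real.log ‖(ev (e n R (2 * k)) (xF (2 * k))).det‖ ≤ τ₁ * (2 * k * N) := by
    have h1 := hK1 (2 * k) (by omega) (xF (2 * k)) x₃ hx hx₃.mem
    have h2 := Real.log_le_log hMx₃ h1
    rw [Real.log_mul hMx.ne' (Real.exp_pos _).ne', Real.log_exp] at h2
    push_cast at h2
    linarith
  have hN0 : (0 : ℝ) ≤ N := Nat.cast_nonneg _
  have hS : ∀ ξ ∈ ball (0 : Fin n → ℂ) ε,
      ∑ j ∈ Finset.range J, ∫ y in Y, vi Y v ξ y * Rf (kk j) y ≤ 4 * τ₁ * k * N := by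
    intro ξ hξ
    have h1 := chain hR (k := 2 * k) (m := m) (J := J) (by omega) hYm hYf (hYR ξ hξ) hY0
      (vF_adm R (xF m)) hvc.measurable hv0 (V := V)
      (fun y hy => hVD _ (hsub₀ (hYK ξ hξ y hy))) hV0 hrp (ω := τ₁) (hsub ξ hξ) hx.mem hx.ne hRf
      (hYK ξ hξ) hx₃ hYp
    refine h1.trans ?_
    have h2 := hK3 (2 * k) (by omega)
    rw [← hN] at h2 ⊢
    have h3 : (N : ℝ) / 2 * (Real.log (volume Y).toReal + Real.log N -
        Real.log (volume (ball (0 : Fin n → ℂ) r)).toReal) ≤ N / 2 * (τ₁ * (2 * k)) := by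
      apply mul_le_mul_of_nonneg_left _ (by positivity)
      push_cast at h2
      rw [hc₁] at h2
      linarith
    have h4 : (J : ℝ) * τ₁ * N ≤ k * τ₁ * N := by
      have : (J : ℝ) ≤ k := by exact_mod_cast hJk
      gcongr
    linarith
  -- the comparison
  set A : ℕ → ℝ := fun j => (2 * Real.log ‖(ev (e n R (kk j)) (xF (kk j))).det‖ -
    Real.log (Gk (μ (kk j)) R (kk j)).det.re - NN n (kk j) * (c₁ + Real.log (NN n (kk j)))) /
      (2 * (kk j : ℝ)) with hAdef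
  have hA : ∀ j < J, ∀ ξ ∈ ball (0 : Fin n → ℂ) ε,
      A j ≤ ∫ y in Y, vi Y (U (kk j)) ξ y * Rf (kk j) y := by
    intro j hj ξ hξ
    obtain ⟨h1, h2⟩ := hkk1 j hj
    have hkp : (0 : ℝ) < kk j := by
      have : 0 < kk j := by omega
      exact_mod_cast this
    have h3 := ustep hR (k := kk j) hYm hYf (hYR ξ hξ) hY0 (hUm (kk j)) (hU0 (kk j))
      (hUCb (kk j)) hrp (K := K) (fun z hz t ht => (hsub ξ hξ z hz t ht).1) (hxF (kk j)).mem
      (hxF (kk j)).ne (hRf (kk j)) hYp hK (hμ (kk j)) (hpdd (kk j) (kk j) le_rfl)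
      (fun f hf y hy => hUb (kk j) (by omega) f hf _ (hsub₀ (hYK ξ hξ y hy)))
    rw [hAdef]
    simp only
    rw [div_le_iff₀ (by positivity), hc₁]
    linarith
  obtain ⟨j, hjJ, hj⟩ := avg_main hYm hYf measurableSet_closedBall hεp
    (D := closedBall (0 : Fin n → ℂ) R) (fun y hy ξ hξ => hsub₀ (hYK ξ hξ y hy)) hm hJ1 (kk := kk)
    hvc.measurable hv0 hV0 hVD hUm hU0 hUCb (fun k => (hRf k).meas) (fun k => (hRf k).nonneg)
    (fun k => (hRf k).integrable) (fun k => by rw [(hRf k).int, card_Ix])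
    (S := 4 * τ₁ * k * N) (by positivity) hS hA hτ₁0.le
    (fun j hj => (hK2 (kk j) (by have := (hkk1 j hj).1; omega)).le)
  obtain ⟨hkj1, hkj2⟩ := hkk1 j hjJ
  set k'' := kk j with hk''
  set N'' := NN n k'' with hN''
  have hkp : (0 : ℝ) < k'' := by
    have : 0 < k'' := by omega
    exact_mod_cast this
  have hN''0 : (0 : ℝ) ≤ N'' := Nat.cast_nonneg _
  have hNN : (N : ℝ) ≤ a * N'' := by
    have h1 : NN n (2 * k) ≤ 2 ^ n * NN n k'' := NN_half n _ _ (by omega)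
    rw [ha]
    exact_mod_cast h1
  have hNk : (N'' : ℝ) ≤ a * NN n k := by
    have h1 : NN n k'' ≤ 2 ^ n * NN n k := NN_half n _ _ hkj2
    rw [ha]
    exact_mod_cast h1
  have hJmr : (k : ℝ) / 2 ≤ J * m := by
    have h1 := Nat.lt_mul_div_succ k (b := m) (by omega)
    rw [← hJ] at h1
    have h2 : (k : ℝ) < m * (J + 1) := by exact_mod_cast h1
    have h3 : (2 : ℝ) * m ≤ k := by exact_mod_cast hk5
    nlinarith
  have hSJ : 4 * τ₁ * k * N / (J * m) ≤ 8 * τ₁ * N := by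
    have hJm0 : (0 : ℝ) < J * m := by linarith
    rw [div_le_iff₀ hJm0]
    have : 8 * τ₁ * N * (k / 2) ≤ 8 * τ₁ * N * (J * m) := by gcongr
    linarith
  have hlog'' := hK3 k'' (by omega)
  rw [← hN''] at hlog''
  have hy'' : 2 * Real.log ‖(ev (e n R k'') (xF k'')).det‖ - Real.log (Gk (μ k'') R k'').det.re ≤
      k'' * N'' * τ₁ * (16 * a + 3) := by
    have h1 : (2 * Real.log ‖(ev (e n R k'') (xF k'')).det‖ - Real.log (Gk (μ k'') R k'').det.re -
        N'' * (c₁ + Real.log N'')) / (2 * (k'' : ℝ)) ≤ 8 * τ₁ * (a * N'') + τ₁ * N'' := by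
      have h2 : A j ≤ 8 * τ₁ * (a * N'') + τ₁ * N'' := by
        refine hj.trans ?_
        have h3 : 8 * τ₁ * N ≤ 8 * τ₁ * (a * N'') := by gcongr
        linarith
      exact h2
    rw [div_le_iff₀ (by positivity)] at h1
    have h4 : (N'' : ℝ) * (c₁ + Real.log N'') ≤ N'' * (τ₁ * k'') := by gcongr
    linarith
  have hpd := hpdd k k'' hkj1
  have hmono := mono_y hR hK (hμ k'') hkj1 (hxF k) (hxF k'') hpd (hpdd k'' k'' le_rfl)
  have hμl : (N'' : ℝ) * Real.log ((μ k'').real Set.univ + NN n k) ≤ N'' * (τ₁ * k) := by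
    have h1 := hK4 k'' (by omega)
    have h2 : Real.log ((μ k'').real Set.univ + NN n k) ≤
        Real.log ((μ k'').real Set.univ + NN n k'') := by
      apply Real.log_le_log
      · have := measureReal_nonneg (μ := μ k'') (s := Set.univ)
        have h3 : (0 : ℝ) < NN n k := by exact_mod_cast NN_pos n k
        linarith
      · have : (NN n k : ℝ) ≤ NN n k'' := by exact_mod_cast NN_mono n hkj1
        linarith
    have h3 : (k'' : ℝ) ≤ 2 * k := by exact_mod_cast hkj2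
    have h4 : τ₁ / 2 * k'' ≤ τ₁ * k := by nlinarith
    exact mul_le_mul_of_nonneg_left (h2.trans (h1.trans h4)) hN''0
  refine ⟨k'', hkj1, hkj2, xF k, hxF k, hpd, ?_⟩
  have hMk : 0 < ‖(ev (e n R k) (xF k)).det‖ := norm_pos_iff.mpr (hxF k).ne
  rw [Real.log_div (by positivity) (det_re_pos hpd).ne', Real.log_pow]
  have hk''le : (k'' : ℝ) ≤ 2 * k := by exact_mod_cast hkj2
  have hNk0 : (0 : ℝ) ≤ NN n k := Nat.cast_nonneg _
  have hfin1 : (k'' : ℝ) * N'' * τ₁ * (16 * a + 3) + N'' * (τ₁ * k) ≤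
      (2 * k) * (a * NN n k) * τ₁ * (16 * a + 3) + (a * NN n k) * (τ₁ * k) := by
    gcongr
  have hfin2 : (2 * k) * (a * NN n k) * τ₁ * (16 * a + 3) + (a * NN n k) * (τ₁ * k) ≤
      τ * (k * NN n k) := by
    have h1 : τ = τ₁ * (40 * a ^ 2) := by rw [hτ₁]; field_simp
    rw [h1]
    have h2 : (2 * k) * (a * NN n k) * τ₁ * (16 * a + 3) + (a * NN n k) * (τ₁ * k) =
        (τ₁ * (k * NN n k)) * (32 * a ^ 2 + 7 * a) := by ring
    have h3 : τ₁ * (40 * a ^ 2) * (k * NN n k) = (τ₁ * (k * NN n k)) * (40 * a ^ 2) := by ring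
    rw [h2, h3]
    apply mul_le_mul_of_nonneg_left _ (by positivity)
    nlinarith
  push_cast
  linarith

end Pool.Agent.KS6_48.VP
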