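import Pool.Agent.KS6_48.VP.Zq
import Pool.Agent.KS6_48.VP.Nm

/-! Measures with densities. -/

set_option autoImplicit false

open MeasureTheory Filter Topology Metric

namespace Pool.Agent.KS6_48.VP

open Pool.Agent.H940R3.VD Pool.Agent.H805R2.Fek

section

variable {X : Type*} [MeasurableSpace X]

/-- the measure with density `w` -/
noncomputable def wm (μ : Measure X) (w : X → ℝ) : Measure X :=
  μ.withDensity fun x => ENNReal.ofReal (w x)

lemma wm_finite {μ : Measure X} [IsFiniteMeasure μ] {w : X → ℝ} (hw : Integrable w μ) :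
    IsFiniteMeasure (wm μ w) := isFiniteMeasure_withDensity_ofReal hw.2

lemma wm_null {μ : Measure X} {w : X → ℝ} {s : Set X} (h : μ s = 0) : wm μ w s = 0 :=
  withDensity_absolutelyContinuous _ _ h

lemma integral_wm {μ : Measure X} {w : X → ℝ} (hw : Measurable w) (hw0 : ∀ x, 0 ≤ w x)
    (g : X → ℝ) : ∫ x, g x ∂(wm μ w) = ∫ x, w x * g x ∂μ := by
  unfold wm
  rw [integral_withDensity_eq_integral_toReal_smul (by fun_prop)
    (Filter.Eventually.of_forall fun x => ENNReal.ofReal_lt_top)]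
  congr 1
  funext x
  rw [ENNReal.toReal_ofReal (hw0 x), smul_eq_mul]

lemma real_wm {μ : Measure X} {w : X → ℝ} (hw : Measurable w) (hw0 : ∀ x, 0 ≤ w x) :
    (wm μ w).real Set.univ = ∫ x, w x ∂μ := by
  have h := integral_wm (μ := μ) hw hw0 (fun _ => 1)
  simpa using h

lemma pi_wm {ι : Type*} [Fintype ι] (μ : Measure X) [IsFiniteMeasure μ] {w : X → ℝ}
    (hw : Measurable w) (hw0 : ∀ x, 0 ≤ w x) (hwi : Integrable w μ) :
    (Measure.pi fun _ : ι => wm μ w) = wm (Measure.pi fun _ : ι => μ) (fun x => ∏ i, w (x i)) := by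
  have := wm_finite hwi
  refine Measure.pi_eq (μ := fun _ : ι => wm μ w) fun s hs => ?_
  unfold wm
  rw [withDensity_apply _ (MeasurableSet.univ_pi hs), Measure.restrict_pi_pi]
  have hwi' : ∀ i, Integrable w (μ.restrict (s i)) := fun i => hwi.restrict
  have h1 : Integrable (fun x : ι → X => ∏ i, w (x i))
      (Measure.pi fun i => μ.restrict (s i)) :=
    Integrable.fintype_prod (f := fun _ => w) hwi'
  rw [← ofReal_integral_eq_lintegral_ofReal h1
    (Filter.Eventually.of_forall fun x => Finset.prod_nonneg fun i _ => hw0 _),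
    integral_fintype_prod_eq_prod (μ := fun i => μ.restrict (s i)) (fun _ => w),
    ENNReal.ofReal_prod_of_nonneg fun i _ => integral_nonneg fun x => hw0 x]
  refine Finset.prod_congr rfl fun i _ => ?_
  rw [withDensity_apply _ (hs i), ofReal_integral_eq_lintegral_ofReal (hwi' i)
    (Filter.Eventually.of_forall fun x => hw0 x)]

/-- Hölder's inequality -/
lemma holder_th (P : Measure X) [IsFiniteMeasure P] {θ : ℝ} (h0 : 0 < θ) (h1 : θ < 1)
    {a b : X → ℝ} (ha : ∀ x, 0 ≤ a x) (hb : ∀ x, 0 ≤ b x) (ham : Measurable a)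
    (hbm : Measurable b) {A B : ℝ} (hA : ∀ᵐ x ∂P, a x ≤ A) (hB : ∀ᵐ x ∂P, b x ≤ B) :
    ∫ x, a x ^ θ * b x ^ (1 - θ) ∂P ≤ (∫ x, a x ∂P) ^ θ * (∫ x, b x ∂P) ^ (1 - θ) := by
  have hpq : (1 / θ).HolderConjugate (1 / (1 - θ)) := by
    rw [Real.holderConjugate_iff]
    refine ⟨(one_lt_div h0).mpr h1, ?_⟩
    simp
  have h2 := integral_mul_le_Lp_mul_Lq_of_nonneg (μ := P) hpq
    (f := fun y => a y ^ θ) (g := fun y => b y ^ (1 - θ))
    (Filter.Eventually.of_forall fun y => Real.rpow_nonneg (ha y) _)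
    (Filter.Eventually.of_forall fun y => Real.rpow_nonneg (hb y) _) ?_ ?_
  · have e1 : ∀ y, (a y ^ θ) ^ (1 / θ) = a y := fun y => by
      rw [← Real.rpow_mul (ha y), mul_one_div_cancel h0.ne', Real.rpow_one]
    have e2 : ∀ y, (b y ^ (1 - θ)) ^ (1 / (1 - θ)) = b y := fun y => by
      rw [← Real.rpow_mul (hb y), mul_one_div_cancel (by linarith : (1 : ℝ) - θ ≠ 0),
        Real.rpow_one]
    simp only [e1, e2, one_div_one_div] at h2
    exact h2
  · apply MemLp.of_bound (C := A ^ θ) (ham.pow_const θ).aestronglyMeasurable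
    filter_upwards [hA] with y hy
    rw [Real.norm_of_nonneg (Real.rpow_nonneg (ha y) _)]
    exact Real.rpow_le_rpow (ha y) hy h0.le
  · apply MemLp.of_bound (C := B ^ (1 - θ)) (hbm.pow_const _).aestronglyMeasurable
    filter_upwards [hB] with y hy
    rw [Real.norm_of_nonneg (Real.rpow_nonneg (hb y) _)]
    exact Real.rpow_le_rpow (hb y) hy (by linarith)

end

variable {n : ℕ}

lemma Zk_wm {μ : Measure (Fin n → ℂ)} [IsFiniteMeasure μ]
    {w : (Fin n → ℂ) → ℝ} (hw : Measurable w) (hw0 : ∀ x, 0 ≤ w x) (hwi : Integrable w μ)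
    (k : ℕ) : Zk (wm μ w) k = ∫ x, (∏ i, w (x i)) * ‖vdm n k x‖ ^ 2
      ∂(Measure.pi fun _ : Ix n k => μ) := by
  unfold Zk
  rw [pi_wm μ hw hw0 hwi, integral_wm]
  · exact Finset.measurable_prod _ fun i _ => hw.comp (measurable_pi_apply i)
  · exact fun x => Finset.prod_nonneg fun i _ => hw0 _

/-- The exponent `p < 2`: comparison with a weighted measure. -/
theorem Zkq_le_wm {K : Set (Fin n → ℂ)} (hKne : K.Nonempty) (hK : IsCompact K)
    {μ : Measure (Fin n → ℂ)} [IsFiniteMeasure μ] (hμ : μ Kᶜ = 0) {p : ℝ} (hp : 0 < p)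
    (hp2 : p < 2) {g : (Fin n → ℂ) → ℝ} (hg : Measurable g) (hg1 : ∀ x, 1 ≤ g x) {G : ℝ}
    (hG : ∀ x ∈ K, g x ≤ G) {T : ℝ} (hT : ∫ x, g x ^ p ∂μ ≤ T) (k : ℕ) :
    Zkq p μ k ≤ Zk (wm μ fun x => g x ^ (p - 2)) k ^ (p / 2) * (T ^ NN n k) ^ (1 - p / 2) := by
  have hg0 : ∀ x, 0 < g x := fun x => lt_of_lt_of_le one_pos (hg1 x)
  have hw1 : ∀ x, g x ^ (p - 2) ≤ 1 := fun x =>
    Real.rpow_le_one_of_one_le_of_nonpos (hg1 x) (by linarith)
  have hw0 : ∀ x, 0 ≤ g x ^ (p - 2) := fun x => (Real.rpow_pos_of_pos (hg0 x) _).le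
  have hwm : Measurable fun x => g x ^ (p - 2) := hg.pow_const _
  have hwi : Integrable (fun x => g x ^ (p - 2)) μ := by
    refine Integrable.mono' (g := fun _ => (1 : ℝ)) (integrable_const _)
      hwm.aestronglyMeasurable (Filter.Eventually.of_forall fun x => ?_)
    rw [Real.norm_of_nonneg (hw0 x)]
    exact hw1 x
  rw [Zk_wm hwm hw0 hwi]
  set P := Measure.pi fun _ : Ix n k => μ with hP
  have hM0 := maxVdm_nonneg (K := K) k
  have hprodm : Measurable fun x : Ix n k → Fin n → ℂ => ∏ i, g (x i) ^ (p - 2) :=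
    Finset.measurable_prod _ fun i _ => hwm.comp (measurable_pi_apply i)
  have hprodm2 : Measurable fun x : Ix n k → Fin n → ℂ => ∏ i, g (x i) ^ p :=
    Finset.measurable_prod _ fun i _ => (hg.pow_const p).comp (measurable_pi_apply i)
  have hH := holder_th P (θ := p / 2) (by positivity) (by linarith)
    (a := fun x => (∏ i, g (x i) ^ (p - 2)) * ‖vdm n k x‖ ^ 2) (b := fun x => ∏ i, g (x i) ^ p)
    (fun x => mul_nonneg (Finset.prod_nonneg fun i _ => hw0 _) (by positivity))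
    (fun x => Finset.prod_nonneg fun i _ => (Real.rpow_pos_of_pos (hg0 _) _).le)
    (hprodm.mul ((vdm_continuous k).measurable.pow_const 2)) hprodm2
    (A := 1 * maxVdm K k ^ 2) (B := ∏ _i : Ix n k, G ^ p) (by
      filter_upwards [ae_vdm_le hKne hK hμ k] with x hx
      apply mul_le_mul _ _ (by positivity) zero_le_one
      · exact Finset.prod_le_one (fun i _ => hw0 _) fun i _ => hw1 _
      · gcongr) (by
      filter_upwards [ae_mem hμ k] with x hx
      exact Finset.prod_le_prod (fun i _ => (Real.rpow_pos_of_pos (hg0 _) _).le)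
        fun i _ => Real.rpow_le_rpow (hg0 _).le (hG _ (hx i)) hp.le)
  have e1 : ∀ x : Ix n k → Fin n → ℂ,
      ((∏ i, g (x i) ^ (p - 2)) * ‖vdm n k x‖ ^ 2) ^ (p / 2) * (∏ i, g (x i) ^ p) ^ (1 - p / 2) =
        ‖vdm n k x‖ ^ p := by
    intro x
    rw [Real.mul_rpow (Finset.prod_nonneg fun i _ => hw0 _) (by positivity),
      ← Real.finsetProd_rpow _ _ (fun i _ => hw0 _),
      ← Real.finsetProd_rpow _ _ (fun i _ => (Real.rpow_pos_of_pos (hg0 _) _).le),
      mul_right_comm, ← Finset.prod_mul_distrib]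
    have e2 : ∀ i ∈ Finset.univ, (g (x i) ^ (p - 2)) ^ (p / 2) * (g (x i) ^ p) ^ (1 - p / 2) =
        1 := by
      intro i _
      rw [← Real.rpow_mul (hg0 _).le, ← Real.rpow_mul (hg0 _).le, ← Real.rpow_add (hg0 _)]
      have : (p - 2) * (p / 2) + p * (1 - p / 2) = 0 := by ring
      rw [this, Real.rpow_zero]
    rw [Finset.prod_congr rfl e2, Finset.prod_const_one, one_mul, ← Real.rpow_natCast,
      ← Real.rpow_mul (norm_nonneg _)]
    congr 1
    push_cast
    ring
  have e3 : ∫ x, ∏ i, g (x i) ^ p ∂P = (∫ x, g x ^ p ∂μ) ^ NN n k := by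
    rw [hP, integral_fintype_prod_eq_pow (fun x => g x ^ p), card_Ix]
  simp only [e1, e3] at hH
  refine hH.trans ?_
  apply mul_le_mul_of_nonneg_left _ (Real.rpow_nonneg (integral_nonneg fun x =>
    mul_nonneg (Finset.prod_nonneg fun i _ => hw0 _) (by positivity)) _)
  have hI : 0 ≤ ∫ x, g x ^ p ∂μ := integral_nonneg fun x => (Real.rpow_pos_of_pos (hg0 _) _).le
  exact Real.rpow_le_rpow (by positivity) (pow_le_pow_left₀ hI hT _) (by linarith)

/-- The exponent `p > 2`: comparison with a weighted measure. -/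
theorem wm_le_Zkq {K : Set (Fin n → ℂ)} (hKne : K.Nonempty) (hK : IsCompact K)
    {μ : Measure (Fin n → ℂ)} [IsFiniteMeasure μ] (hμ : μ Kᶜ = 0) {p : ℝ}
    (hp2 : 2 < p) {g : (Fin n → ℂ) → ℝ} (hg : Measurable g) (hg0 : ∀ x, 0 ≤ g x) {G : ℝ}
    (hG : ∀ x, g x ≤ G) {T : ℝ} (hT : ∫ x, g x ^ p ∂μ ≤ T) (k : ℕ) :
    Zk (wm μ fun x => g x ^ (p - 2)) k ≤ Zkq p μ k ^ (2 / p) * (T ^ NN n k) ^ (1 - 2 / p) := by
  have hp : 0 < p := by linarith
  have hw0 : ∀ x, 0 ≤ g x ^ (p - 2) := fun x => Real.rpow_nonneg (hg0 x) _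
  have hw1 : ∀ x, g x ^ (p - 2) ≤ G ^ (p - 2) := fun x =>
    Real.rpow_le_rpow (hg0 x) (hG x) (by linarith)
  have hwm : Measurable fun x => g x ^ (p - 2) := hg.pow_const _
  have hwi : Integrable (fun x => g x ^ (p - 2)) μ := by
    refine Integrable.mono' (g := fun _ => G ^ (p - 2)) (integrable_const _)
      hwm.aestronglyMeasurable (Filter.Eventually.of_forall fun x => ?_)
    rw [Real.norm_of_nonneg (hw0 x)]
    exact hw1 x
  rw [Zk_wm hwm hw0 hwi]
  set P := Measure.pi fun _ : Ix n k => μ with hP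
  have hM0 := maxVdm_nonneg (K := K) k
  have hprodm2 : Measurable fun x : Ix n k → Fin n → ℂ => ∏ i, g (x i) ^ p :=
    Finset.measurable_prod _ fun i _ => (hg.pow_const p).comp (measurable_pi_apply i)
  have hθ1 : 2 / p < 1 := (div_lt_one hp).mpr hp2
  have hH := holder_th P (θ := 2 / p) (by positivity) hθ1
    (a := fun x => ‖vdm n k x‖ ^ p) (b := fun x => ∏ i, g (x i) ^ p)
    (fun x => by positivity)
    (fun x => Finset.prod_nonneg fun i _ => Real.rpow_nonneg (hg0 _) _)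
    ((vdm_continuous k).measurable.pow_const p) hprodm2
    (A := maxVdm K k ^ p) (B := ∏ _i : Ix n k, G ^ p) (by
      filter_upwards [ae_vdm_le hKne hK hμ k] with x hx
      exact Real.rpow_le_rpow (norm_nonneg _) hx hp.le) (by
      refine Filter.Eventually.of_forall fun x => ?_
      exact Finset.prod_le_prod (fun i _ => Real.rpow_nonneg (hg0 _) _)
        fun i _ => Real.rpow_le_rpow (hg0 _) (hG _) hp.le)
  have e1 : ∀ x : Ix n k → Fin n → ℂ,
      (‖vdm n k x‖ ^ p) ^ (2 / p) * (∏ i, g (x i) ^ p) ^ (1 - 2 / p) =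
        (∏ i, g (x i) ^ (p - 2)) * ‖vdm n k x‖ ^ 2 := by
    intro x
    rw [← Real.finsetProd_rpow _ _ (fun i _ => Real.rpow_nonneg (hg0 _) _),
      ← Real.rpow_mul (norm_nonneg _), mul_comm]
    congr 1
    · refine Finset.prod_congr rfl fun i _ => ?_
      rw [← Real.rpow_mul (hg0 _)]
      congr 1
      field_simp
    · have : p * (2 / p) = ((2 : ℕ) : ℝ) := by
        push_cast
        field_simp
      rw [this, Real.rpow_natCast]
  have e3 : ∫ x, ∏ i, g (x i) ^ p ∂P = (∫ x, g x ^ p ∂μ) ^ NN n k := by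
    rw [hP, integral_fintype_prod_eq_pow (fun x => g x ^ p), card_Ix]
  simp only [e1, e3] at hH
  refine hH.trans ?_
  apply mul_le_mul_of_nonneg_left _ (Real.rpow_nonneg (integral_nonneg fun x =>
    by positivity) _)
  have hI : 0 ≤ ∫ x, g x ^ p ∂μ := integral_nonneg fun x => Real.rpow_nonneg (hg0 _) _
  exact Real.rpow_le_rpow (by positivity) (pow_le_pow_left₀ hI hT _) (by linarith)

end Pool.Agent.KS6_48.VP
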