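import Pool.Agent.KS6_48.VP.Wt

/-! Condition (R) for exponents below two from condition (Z). -/

set_option autoImplicit false

open Matrix MeasureTheory Metric Filter Topology
open scoped ComplexOrder MatrixOrder Matrix.Norms.L2Operator

namespace Pool.Agent.KS6_48.VP

open Pool.Agent.H940R3.VD Pool.Agent.H805R2.Gram Pool.Agent.H805R2.Fek

variable {n : ℕ}

/-- the lower bound for the Gram determinant -/
def GB (K : Set (Fin n → ℂ)) (R τ : ℝ) (μ : Measure (Fin n → ℂ)) (k : ℕ) : Prop :=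
  ∃ x : Ix n k → (Fin n → ℂ), Fk (e n R k) K x ∧ (Gk μ R k).PosDef ∧
    Real.log (‖(ev (e n R k) x).det‖ ^ 2 / (Gk μ R k).det.re) ≤ τ * (k * NN n k)

theorem ZR_unif {R : ℝ} (hR : 0 < R) {K : Set (Fin n → ℂ)} (hK : K ⊆ closedBall 0 R)
    {z₀ : Fin n → ℂ} {r c' : ℝ} (hr : 0 < r) (hc' : 0 ≤ c') (hg : Gr K c' (closedBall z₀ (2 * r)))
    {c : ℝ} (hc : c' < c) {M₀ : ℝ} (hM₀ : 0 ≤ M₀) :
    ∃ τ : ℝ, 0 < τ ∧ ∀ᶠ d : ℕ in atTop, ∀ (μ : Measure (Fin n → ℂ)) [IsFiniteMeasure μ],
      μ Kᶜ = 0 → μ.real Set.univ ≤ M₀ → (∀ k ≥ d, GB K R τ μ k) →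
      ∀ f : (Fin n → ℂ) → ℂ, IsP d f → ∀ s : ℝ, 0 < s →
        ∫ z, ‖f z‖ ^ 2 ∂μ ≤ s ^ 2 → ‖f z₀‖ < Real.exp (c * d) * s := by
  obtain ⟨cR, hcR, hcore⟩ := core n hR
  set γ := c - c' with hγ
  have hγ0 : 0 < γ := by linarith
  set θ := min 1 (γ / 4) with hθ
  have hθ0 : 0 < θ := lt_min one_pos (by positivity)
  have hθ1 : θ ≤ 1 := min_le_left _ _
  have hθ2 : θ ≤ γ / 4 := min_le_right _ _
  set L₀ := |Real.log (cR * ((volume (ball (0 : Fin n → ℂ) (θ * r))).toReal / 4))| with hL₀
  have hL₀0 : 0 ≤ L₀ := abs_nonneg _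
  set W := L₀ + 2 * c' + γ / 4 with hW
  have hW0 : 0 < W := by positivity
  obtain ⟨Q, hQ⟩ := pow_unbounded_of_one_lt (4 * W / γ) (one_lt_two)
  set A : ℝ := ((2 : ℝ) ^ n) ^ (Q + 1) with hA
  have hA0 : 0 < A := by positivity
  set τ := γ / (8 * A) with hτ
  have hτ0 : 0 < τ := by positivity
  obtain ⟨k₂, hk₂⟩ := eventually_atTop.mp (log_NN n hM₀ hτ0)
  have e3 : ∀ᶠ d : ℕ in atTop, Real.log 2 / θ ≤ d :=
    tendsto_natCast_atTop_atTop.eventually_ge_atTop _
  have e4 : ∀ᶠ d : ℕ in atTop, W / γ + 1 ≤ d :=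
    tendsto_natCast_atTop_atTop.eventually_ge_atTop _
  refine ⟨τ, hτ0, ?_⟩
  filter_upwards [eventually_ge_atTop k₂, e3, e4] with d hd2 hd3 hd4
  intro μ _ hμ hμM hGB f hf s hs hfs
  by_contra hcon
  push Not at hcon
  set m := d / 2 ^ Q + 1 with hm
  obtain ⟨x, hx, hpd, hY⟩ := hGB (d + m) (Nat.le_add_right d m)
  have h2 := hk₂ (d + m) (le_trans hd2 (Nat.le_add_right d m))
  have hgrow : ∀ g, IsP (d + m) g → ∀ S : ℝ, 0 ≤ S → (∀ z ∈ K, ‖g z‖ ≤ S) →
      ∀ z ∈ closedBall z₀ (2 * r), ‖g z‖ ≤ Real.exp (c' * (d + m : ℕ)) * S :=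
    fun g hg' S hS hz => hg (d + m) g hg' S hS hz
  have hmain := hcore K hK μ hμ d m hpd x hx f hf z₀ s hs hfs c hcon r θ c' hr hθ0 hθ1
    (by rw [div_le_iff₀ hθ0] at hd3; linarith) hgrow
  have hNm : (1 : ℝ) ≤ NN n m := by exact_mod_cast NN_pos n m
  have hkm : d + m ≤ 2 ^ (Q + 1) * m := by
    have h3 : d < 2 ^ Q * m := by
      rw [hm]
      have := Nat.lt_mul_div_succ d (b := 2 ^ Q) (by positivity)
      simpa using this
    have h4 : m ≤ 2 ^ Q * m := Nat.le_mul_of_pos_left _ (by positivity)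
    rw [pow_succ]
    nlinarith
  have hNk : (NN n (d + m) : ℝ) ≤ A * NN n m := by
    have := NN_two_pow n (Q + 1) hkm
    rw [hA]
    exact_mod_cast this
  have hmd : (m : ℝ) ≤ d / 2 ^ Q + 1 := by
    rw [hm]
    push_cast
    have h5 : ((d / 2 ^ Q : ℕ) : ℝ) ≤ (d : ℝ) / ((2 ^ Q : ℕ) : ℝ) := Nat.cast_div_le
    push_cast at h5
    linarith
  have hlogm : Real.log (μ.real Set.univ + NN n m) ≤ τ * (d + m : ℕ) := by
    refine le_trans ?_ h2
    apply Real.log_le_log
    · have := measureReal_nonneg (μ := μ) (s := Set.univ)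
      linarith
    · have : (NN n m : ℝ) ≤ NN n (d + m) := by exact_mod_cast NN_mono n (by omega)
      linarith
  have hSSl : -(m * NN n m * L₀) ≤ SS n m *
      Real.log (cR * ((volume (ball (0 : Fin n → ℂ) (θ * r))).toReal / 4)) := by
    have h6 := neg_abs_le (Real.log (cR * ((volume (ball (0 : Fin n → ℂ) (θ * r))).toReal / 4)))
    have h7 := SS_le n m
    have h8 : (0 : ℝ) ≤ SS n m := Nat.cast_nonneg _
    rw [← hL₀] at h6
    nlinarith
  have hd0 : (0 : ℝ) ≤ d := Nat.cast_nonneg d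
  have hm0 : (0 : ℝ) ≤ m := Nat.cast_nonneg m
  push_cast at hmain hlogm hY
  have hkk : (0 : ℝ) ≤ (d : ℝ) + m := by positivity
  have h9 : (NN n (d + m) : ℝ) * Real.log (μ.real Set.univ + NN n m) ≤
      A * NN n m * (τ * (d + m)) := by
    calc (NN n (d + m) : ℝ) * Real.log (μ.real Set.univ + NN n m) ≤
          NN n (d + m) * (τ * (d + m)) := by gcongr
      _ ≤ _ := by gcongr
  have h10 : Real.log (‖(ev (e n R (d + m)) x).det‖ ^ 2 / (Gk μ R (d + m)).det.re) ≤
      τ * ((d + m) * (A * NN n m)) := by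
    refine hY.trans ?_
    gcongr
  have hAτ : A * τ = γ / 8 := by rw [hτ]; field_simp
  -- divide by NN n m
  have h11 : 2 * (d * (c - θ)) ≤ m * L₀ + 2 * c' * (d + m) + 2 * (γ / 8) * (d + m) := by
    have h12 : (2 * (d * (c - θ))) * NN n m ≤
        (m * L₀ + 2 * c' * (d + m) + 2 * (γ / 8) * (d + m)) * NN n m := by
      rw [← hAτ]
      nlinarith
    exact le_of_mul_le_mul_right h12 (by linarith)
  have h13 : m * W ≤ γ / 4 * d + W := by
    have h14 : (d : ℝ) / 2 ^ Q * W ≤ γ / 4 * d := by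
      rw [div_mul_eq_mul_div, div_le_iff₀ (by positivity)]
      rw [div_lt_iff₀ hγ0] at hQ
      nlinarith
    nlinarith
  have h15 : W + γ ≤ γ * d := by
    have h16 := mul_le_mul_of_nonneg_left hd4 hγ0.le
    have h17 : γ * (W / γ + 1) = W + γ := by field_simp
    linarith
  have hcc : c = c' + γ := by linarith
  rw [hcc] at h11
  rw [hW] at h13 h15
  nlinarith

/-- lower bound of the Gram determinant from a lower bound of `Z_k` -/
theorem gb_of_Z {R : ℝ} (hR : 0 < R) {K : Set (Fin n → ℂ)} (hKne : K.Nonempty)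
    (hKc : IsCompact K) (hK : K ⊆ closedBall 0 R)
    {μ : Measure (Fin n → ℂ)} [IsFiniteMeasure μ] (hμ : μ Kᶜ = 0) {τ₁ τ : ℝ} {k : ℕ}
    (hmvp : 0 < maxVdm K k)
    (hZ : maxVdm K k ^ 2 * Real.exp (-(τ₁ * (k * NN n k))) ≤ Zk μ k)
    (hlogN : Real.log (NN n k) ≤ (τ - τ₁) * k) : GB K R τ μ k := by
  obtain ⟨x, hx, hmax⟩ := exists_fek hKc hKne R k
  have hmv := maxVdm_eq hR hx hmax
  have hZp : 0 < Zk μ k := lt_of_lt_of_le (by positivity) hZ
  have hM : 0 < ‖(ev (e n R k) x).det‖ := by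
    rw [hmv] at hmvp
    exact (mul_pos_iff_of_pos_left (by positivity)).mp hmvp
  have hZe := Zk_eq hR hK hμ k
  have hpsd := Gk_psd hR hK hμ k
  have hD : 0 < (Gk μ R k).det.re := by
    rcases (det_re_nonneg hpsd).eq_or_lt with h | h
    · rw [hZe, ← h, mul_zero, mul_zero] at hZp
      exact absurd hZp (lt_irrefl 0)
    · exact h
  refine ⟨x, ⟨hx, hmax, norm_pos_iff.mp hM⟩, ?_, ?_⟩
  · rw [hpsd.posDef_iff_det_ne_zero]
    intro h
    rw [h] at hD
    simp at hD
  · have hfac : (0 : ℝ) < (NN n k).factorial := by exact_mod_cast Nat.factorial_pos _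
    have h1 := Real.log_le_log (by positivity) hZ
    rw [Real.log_mul (by positivity) (Real.exp_pos _).ne', Real.log_exp, Real.log_pow] at h1
    have h8 : Real.log (Zk μ k) = 2 * Real.log (R ^ (n * SS n k)) +
        (Real.log (NN n k).factorial + Real.log (Gk μ R k).det.re) := by
      rw [hZe, Real.log_mul (by positivity) (by positivity), Real.log_mul hfac.ne' hD.ne',
        Real.log_pow]
      push_cast
      ring
    have h9 : Real.log (maxVdm K k) = Real.log (R ^ (n * SS n k)) +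
        Real.log ‖(ev (e n R k) x).det‖ := by
      rw [hmv, Real.log_mul (by positivity) hM.ne']
    have h10 : Real.log (NN n k).factorial ≤ NN n k * ((τ - τ₁) * k) := by
      calc Real.log (NN n k).factorial ≤ Real.log ((NN n k : ℝ) ^ NN n k) := by
            apply Real.log_le_log hfac
            exact_mod_cast Nat.factorial_le_pow (NN n k)
        _ = NN n k * Real.log (NN n k) := Real.log_pow _ _
        _ ≤ _ := by gcongr
    rw [Real.log_div (by positivity) hD.ne', Real.log_pow]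
    push_cast at h1 ⊢
    nlinarith

/-- exponents below two -/
theorem bnd_of_good (hn : 1 ≤ n) {R : ℝ} (hR : 0 < R) {K : Set (Fin n → ℂ)} (hKne : K.Nonempty)
    (hKc : IsCompact K) (hK : K ⊆ closedBall 0 R)
    {μ : Measure (Fin n → ℂ)} [IsFiniteMeasure μ] (hμ : μ Kᶜ = 0) {p : ℝ} (hp : 0 < p)
    (hp2 : p < 2) (H : Good p K μ) : Bnd p K μ := by
  intro z c hcz
  obtain ⟨c', hc'1, hc'2⟩ := EReal.lt_iff_exists_real_btwn.mp hcz
  have hc'c : c' < c := by exact_mod_cast hc'2
  have hV0 := VKstar_nonneg hn hR hK z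
  have hc'0 : 0 ≤ c' := by
    have : (0 : EReal) ≤ (c' : EReal) := hV0.trans hc'1.le
    exact_mod_cast this
  obtain ⟨r, hr, hr2⟩ := ball_of_VKstar hc'1
  have hg := gr_of_VK hKne hc'0 hr2
  set m := μ.real Set.univ with hm
  have hm0 : 0 ≤ m := measureReal_nonneg
  obtain ⟨τ, hτ, hunif⟩ := ZR_unif hR hK hr hc'0 hg hc'c hm0
  -- the Gram bound, uniformly
  set L := Real.log (m + 2) with hL
  have hL0 : 0 ≤ L := Real.log_nonneg (by linarith)
  have e1 : ∀ᶠ k : ℕ in atTop, 2 / p * L / (τ / 4) ≤ k :=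
    tendsto_natCast_atTop_atTop.eventually_ge_atTop _
  have e2 := log_NN n (C := 0) le_rfl (τ := τ / 2) (by positivity)
  have hgb : ∀ᶠ k : ℕ in atTop, ∀ f : (Fin n → ℂ) → ℂ, Continuous f →
      ∫ w, ‖f w‖ ^ p ∂μ ≤ 1 → GB K R τ (wm μ fun x => (max 1 ‖f x‖) ^ (p - 2)) k := by
    filter_upwards [H (τ / 4 * (p / 2)) (by positivity), e1, e2] with k ⟨hM, hk⟩ hk1 hk2
    intro f hf hfp
    set g : (Fin n → ℂ) → ℝ := fun x => max 1 ‖f x‖ with hgdef
    have hgc : Continuous g := continuous_const.max hf.norm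
    have hg1 : ∀ x, 1 ≤ g x := fun x => le_max_left _ _
    obtain ⟨G, hG⟩ := (isCompact_closedBall (0 : Fin n → ℂ) R).exists_bound_of_continuousOn
      hgc.continuousOn
    have hGK : ∀ x ∈ K, g x ≤ G := fun x hx => (le_abs_self _).trans (hG x (hK hx))
    have hgi : Integrable (fun x => g x ^ p) μ := by
      have h1 := (integrable_const (1 : ℝ)).add (int_p hK hμ hp.le hf)
      refine Integrable.mono' h1 (hgc.rpow_const fun _ => Or.inr hp.le).aestronglyMeasurable
        (Filter.Eventually.of_forall fun x => ?_)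
      rw [Real.norm_of_nonneg (by positivity)]
      have h2 : 0 ≤ ‖f x‖ ^ p := by positivity
      change (max 1 ‖f x‖) ^ p ≤ 1 + ‖f x‖ ^ p
      rcases le_total 1 ‖f x‖ with h | h
      · rw [max_eq_right h]; linarith
      · rw [max_eq_left h, Real.one_rpow]; linarith
    have hT : ∫ x, g x ^ p ∂μ ≤ m + 2 := by
      calc ∫ x, g x ^ p ∂μ ≤ ∫ x, (1 + ‖f x‖ ^ p) ∂μ := by
            apply integral_mono hgi ((integrable_const (1 : ℝ)).add (int_p hK hμ hp.le hf))
            intro x
            have h2 : 0 ≤ ‖f x‖ ^ p := by positivity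
            change (max 1 ‖f x‖) ^ p ≤ 1 + ‖f x‖ ^ p
            rcases le_total 1 ‖f x‖ with h | h
            · rw [max_eq_right h]; linarith
            · rw [max_eq_left h, Real.one_rpow]; linarith
        _ = m + ∫ x, ‖f x‖ ^ p ∂μ := by
            rw [integral_add (integrable_const _) (int_p hK hμ hp.le hf), integral_const,
              smul_eq_mul, mul_one]
        _ ≤ m + 2 := by linarith
    have hZ := Zkq_le_wm hKne hKc hμ hp hp2 hgc.measurable hg1 hGK hT k
    have hw1 : ∀ x, g x ^ (p - 2) ≤ 1 := fun x =>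
      Real.rpow_le_one_of_one_le_of_nonpos (hg1 x) (by linarith)
    have hw0 : ∀ x, 0 ≤ g x ^ (p - 2) := fun x =>
      Real.rpow_nonneg (zero_le_one.trans (hg1 x)) _
    have hwi : Integrable (fun x => g x ^ (p - 2)) μ := by
      refine Integrable.mono' (g := fun _ => (1 : ℝ)) (integrable_const _)
        (hgc.measurable.pow_const _).aestronglyMeasurable (Filter.Eventually.of_forall fun x => ?_)
      rw [Real.norm_of_nonneg (hw0 x)]
      exact hw1 x
    have := wm_finite hwi
    have hTp : 0 < (m + 2) ^ NN n k := by positivity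
    have hZ2 : 0 ≤ Zk (wm μ fun x => g x ^ (p - 2)) k := Zk_nonneg _ _
    have h1 := hk.trans hZ
    have hZp : 0 < Zk (wm μ fun x => g x ^ (p - 2)) k := by
      rcases hZ2.eq_or_lt with h | h
      · rw [← h, Real.zero_rpow (by positivity), zero_mul] at h1
        have : 0 < maxVdm K k ^ p * Real.exp (-(τ / 4 * (p / 2) * (k * NN n k))) := by positivity
        linarith
      · exact h
    refine gb_of_Z hR hKne hKc hK (wm_null hμ) (τ₁ := τ / 2) hM ?_ ?_
    · have h3 := Real.log_le_log (by positivity) h1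
      rw [Real.log_mul (by positivity) (by positivity), Real.log_mul (by positivity)
        (by positivity), Real.log_rpow hM, Real.log_exp, Real.log_rpow hZp, Real.log_rpow hTp,
        Real.log_pow, ← hL] at h3
      have hN0 : (0 : ℝ) ≤ NN n k := Nat.cast_nonneg _
      have h8 : 2 / p * L * NN n k ≤ τ / 4 * (k * NN n k) := by
        rw [div_le_iff₀ (by positivity)] at hk1
        have := mul_le_mul_of_nonneg_right hk1 hN0
        linarith
      have h9 : (1 - p / 2) * (NN n k * L) ≤ NN n k * L := by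
        have h10 : 0 ≤ p / 2 := by positivity
        have h11 : 0 ≤ NN n k * L := by positivity
        nlinarith
      have h12 := mul_le_mul_of_nonneg_left (h3.trans (add_le_add_right h9 _))
        (by positivity : 0 ≤ 2 / p)
      have e2 : 2 / p * (p * Real.log (maxVdm K k) + -(τ / 4 * (p / 2) * (k * NN n k))) =
          2 * Real.log (maxVdm K k) - τ / 4 * (k * NN n k) := by
        field_simp
        ring
      have e3 : 2 / p * (p / 2 * Real.log (Zk (wm μ fun x => g x ^ (p - 2)) k) + NN n k * L) =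
          Real.log (Zk (wm μ fun x => g x ^ (p - 2)) k) + 2 / p * L * NN n k := by
        field_simp
      rw [e2, e3] at h12
      rw [← Real.log_le_log_iff (by positivity) hZp, Real.log_mul (by positivity) (by positivity),
        Real.log_exp, Real.log_pow]
      push_cast
      linarith
    · rw [zero_add] at hk2
      linarith
  obtain ⟨k₁, hk₁⟩ := eventually_atTop.mp hgb
  obtain ⟨k₂, hk₂⟩ := eventually_atTop.mp hunif
  refine ⟨max k₁ k₂, fun k hk f hf => ?_⟩
  have hk1 : k₁ ≤ k := (le_max_left _ _).trans hk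
  have hk2 : k₂ ≤ k := (le_max_right _ _).trans hk
  -- normalised polynomials
  have key : ∀ t : ℝ, 0 < t → Nm p μ f < t → ‖f z‖ ≤ Real.exp (k * c) * t := by
    intro t ht hft
    have hc : (t : ℂ)⁻¹ ≠ 0 := inv_ne_zero (by exact_mod_cast ht.ne')
    set f' : (Fin n → ℂ) → ℂ := fun w => (t : ℂ)⁻¹ * f w with hf'
    have hf'P : IsP k f' := by
      obtain ⟨P, hP, hP2⟩ := hf
      refine ⟨MvPolynomial.C (t : ℂ)⁻¹ * P, ?_, fun w => ?_⟩
      · refine (MvPolynomial.totalDegree_mul _ _).trans ?_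
        rw [MvPolynomial.totalDegree_C, zero_add]
        exact hP
      · rw [map_mul, MvPolynomial.eval_C, hP2]
    have hnt : ‖(t : ℂ)⁻¹‖ = t⁻¹ := by
      rw [norm_inv, Complex.norm_real, Real.norm_of_nonneg ht.le]
    have hI0 : 0 ≤ ∫ w, ‖f' w‖ ^ p ∂μ := integral_nonneg fun _ => by positivity
    have hI1 : ∫ w, ‖f' w‖ ^ p ∂μ ≤ 1 := by
      have h1 : Nm p μ f' < 1 := by
        rw [hf', Nm_smul p hp, hnt, inv_mul_lt_iff₀ ht, mul_one]
        exact hft
      unfold Nm at h1
      by_contra hcon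
      push Not at hcon
      have := Real.one_lt_rpow hcon (by positivity : 0 < 1 / p)
      linarith
    set g : (Fin n → ℂ) → ℝ := fun x => max 1 ‖f' x‖ with hgdef
    have hgc : Continuous g := continuous_const.max hf'P.continuous.norm
    have hg1 : ∀ x, 1 ≤ g x := fun x => le_max_left _ _
    have hw1 : ∀ x, g x ^ (p - 2) ≤ 1 := fun x =>
      Real.rpow_le_one_of_one_le_of_nonpos (hg1 x) (by linarith)
    have hw0 : ∀ x, 0 ≤ g x ^ (p - 2) := fun x =>
      Real.rpow_nonneg (zero_le_one.trans (hg1 x)) _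
    have hwi : Integrable (fun x => g x ^ (p - 2)) μ := by
      refine Integrable.mono' (g := fun _ => (1 : ℝ)) (integrable_const _)
        (hgc.measurable.pow_const _).aestronglyMeasurable (Filter.Eventually.of_forall fun x => ?_)
      rw [Real.norm_of_nonneg (hw0 x)]
      exact hw1 x
    have := wm_finite hwi
    have h2 := hk₂ k hk2 (wm μ fun x => g x ^ (p - 2)) (wm_null hμ) (by
      rw [real_wm (hgc.measurable.pow_const _) hw0]
      calc ∫ x, g x ^ (p - 2) ∂μ ≤ ∫ _x, (1 : ℝ) ∂μ := integral_mono hwi (integrable_const _) hw1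
        _ = m := by rw [integral_const, smul_eq_mul, mul_one])
      (fun k' hk' => hk₁ k' (hk1.trans hk') f' hf'P.continuous hI1) f' hf'P 1 one_pos (by
        rw [integral_wm (hgc.measurable.pow_const _) hw0, one_pow]
        refine le_trans ?_ hI1
        apply integral_mono_of_nonneg
        · exact Filter.Eventually.of_forall fun x => mul_nonneg (hw0 x) (by positivity)
        · exact int_p hK hμ hp.le hf'P.continuous
        · refine Filter.Eventually.of_forall fun x => ?_
          change (max 1 ‖f' x‖) ^ (p - 2) * ‖f' x‖ ^ 2 ≤ ‖f' x‖ ^ p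
          rcases le_total 1 ‖f' x‖ with h | h
          · rw [max_eq_right h, ← Real.rpow_natCast, ← Real.rpow_add (by linarith)]
            apply le_of_eq
            congr 1
            push_cast
            ring
          · rw [max_eq_left h, Real.one_rpow, one_mul, ← Real.rpow_natCast]
            rcases (norm_nonneg (f' x)).eq_or_lt with h0 | h0
            · rw [← h0, Real.zero_rpow hp.ne', Real.zero_rpow (by norm_num)]
            · exact Real.rpow_le_rpow_of_exponent_ge h0 h (by push_cast; linarith))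
    have h3 : ‖f' z‖ = t⁻¹ * ‖f z‖ := by rw [hf', norm_mul, hnt]
    rw [h3, mul_one, inv_mul_lt_iff₀ ht] at h2
    have h4 : Real.exp (c * k) = Real.exp (k * c) := by congr 1; ring
    rw [h4] at h2
    linarith
  apply le_of_forall_pos_le_add
  intro ε hε
  have hN := Nm_nonneg p μ f
  have h5 := key (Nm p μ f + ε / Real.exp (k * c)) (by positivity) (by
    have : 0 < ε / Real.exp (k * c) := by positivity
    linarith)
  rw [mul_add, mul_div_cancel₀ _ (Real.exp_pos _).ne'] at h5
  exact h5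

end Pool.Agent.KS6_48.VP
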