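import Pool.Agent.KS6_48.VP.Def

/-! The moments of the Vandermonde determinant for different exponents. -/

set_option autoImplicit false

open MeasureTheory Filter Topology Metric

namespace Pool.Agent.KS6_48.VP

open Pool.Agent.H940R3.VD Pool.Agent.H805R2.Fek

variable {n : ℕ}

lemma vdm_continuous (k : ℕ) : Continuous fun x : Ix n k → (Fin n → ℂ) => ‖vdm n k x‖ := by
  have h : (fun x : Ix n k → (Fin n → ℂ) => ‖vdm n k x‖) =
      fun x => (1 : ℝ) ^ (n * SS n k) * ‖(ev (e n 1 k) x).det‖ := by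
    funext x
    exact vdm_eq one_pos k x
  rw [h]
  exact continuous_const.mul (continuous_det 1 k).norm

lemma vdm_rpow_continuous {q : ℝ} (hq : 0 ≤ q) (k : ℕ) :
    Continuous fun x : Ix n k → (Fin n → ℂ) => ‖vdm n k x‖ ^ q :=
  (vdm_continuous k).rpow_const fun _ => Or.inr hq

lemma ae_mem {K : Set (Fin n → ℂ)} {μ : Measure (Fin n → ℂ)} [IsFiniteMeasure μ]
    (hμ : μ Kᶜ = 0) (k : ℕ) : ∀ᵐ y ∂(Measure.pi fun _ : Ix n k => μ), ∀ j, y j ∈ K := by
  have h1 : ∀ _j : Ix n k, ∀ᵐ z ∂μ, z ∈ K := by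
    intro _
    rw [ae_iff]
    exact hμ
  exact Measure.ae_pi_le_pi (Filter.eventually_pi h1)

lemma vdm_le_max {K : Set (Fin n → ℂ)} (hKne : K.Nonempty) (hK : IsCompact K) (k : ℕ)
    {y : Ix n k → (Fin n → ℂ)} (hy : ∀ j, y j ∈ K) : ‖vdm n k y‖ ≤ maxVdm K k := by
  obtain ⟨x, hx, hmax⟩ := exists_fek hK hKne 1 k
  rw [maxVdm_eq one_pos hx hmax, vdm_eq one_pos]
  have := hmax y hy
  gcongr

lemma ae_vdm_le {K : Set (Fin n → ℂ)} (hKne : K.Nonempty) (hK : IsCompact K)
    {μ : Measure (Fin n → ℂ)} [IsFiniteMeasure μ] (hμ : μ Kᶜ = 0) (k : ℕ) :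
    ∀ᵐ y ∂(Measure.pi fun _ : Ix n k => μ), ‖vdm n k y‖ ≤ maxVdm K k := by
  filter_upwards [ae_mem hμ k] with y hy
  exact vdm_le_max hKne hK k hy

lemma vdm_int {K : Set (Fin n → ℂ)} (hKne : K.Nonempty) (hK : IsCompact K)
    {μ : Measure (Fin n → ℂ)} [IsFiniteMeasure μ] (hμ : μ Kᶜ = 0) {q : ℝ} (hq : 0 ≤ q) (k : ℕ) :
    Integrable (fun y => ‖vdm n k y‖ ^ q) (Measure.pi fun _ : Ix n k => μ) := by
  refine Integrable.mono' (g := fun _ => maxVdm K k ^ q) (integrable_const _)
    (vdm_rpow_continuous hq k).aestronglyMeasurable ?_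
  filter_upwards [ae_vdm_le hKne hK hμ k] with y hy
  rw [Real.norm_of_nonneg (by positivity)]
  exact Real.rpow_le_rpow (norm_nonneg _) hy hq

lemma mass_pi (μ : Measure (Fin n → ℂ)) [IsFiniteMeasure μ] (k : ℕ) :
    (Measure.pi fun _ : Ix n k => μ).real Set.univ = μ.real Set.univ ^ NN n k := by
  simp [Measure.real, Measure.pi_univ, card_Ix]

lemma Zkq_nonneg (q : ℝ) (μ : Measure (Fin n → ℂ)) (k : ℕ) : 0 ≤ Zkq q μ k :=
  integral_nonneg fun _ => Real.rpow_nonneg (norm_nonneg _) _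

lemma Zkq_le {K : Set (Fin n → ℂ)} (hKne : K.Nonempty) (hK : IsCompact K)
    {μ : Measure (Fin n → ℂ)} [IsFiniteMeasure μ] (hμ : μ Kᶜ = 0) {q : ℝ} (hq : 0 ≤ q) (k : ℕ) :
    Zkq q μ k ≤ maxVdm K k ^ q * μ.real Set.univ ^ NN n k := by
  unfold Zkq
  calc ∫ y, ‖vdm n k y‖ ^ q ∂(Measure.pi fun _ : Ix n k => μ)
      ≤ ∫ _y, maxVdm K k ^ q ∂(Measure.pi fun _ : Ix n k => μ) := by
        apply integral_mono_ae (vdm_int hKne hK hμ hq k) (integrable_const _)
        filter_upwards [ae_vdm_le hKne hK hμ k] with y hy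
        exact Real.rpow_le_rpow (norm_nonneg _) hy hq
    _ = maxVdm K k ^ q * μ.real Set.univ ^ NN n k := by
        rw [integral_const, smul_eq_mul, mul_comm, mass_pi]

lemma upper_q (hn : 1 ≤ n) {K : Set (Fin n → ℂ)} (hKne : K.Nonempty) (hK : IsCompact K)
    {μ : Measure (Fin n → ℂ)} [IsFiniteMeasure μ] (hμ : μ Kᶜ = 0) {q : ℝ} (hq : 0 < q)
    {τ : ℝ} (hτ : 0 < τ) :
    ∀ᶠ k : ℕ in atTop, Zkq q μ k ^ (1 / (q * lk n k)) ≤
      maxVdm K k ^ (1 / lk n k) * Real.exp τ := by
  set B := μ.real Set.univ + 1 with hB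
  have hμ0 : 0 ≤ μ.real Set.univ := measureReal_nonneg
  have hB1 : 1 ≤ B := by linarith
  have e1 : ∀ᶠ k : ℕ in atTop, 2 * Real.log B / (τ * q) ≤ k :=
    tendsto_natCast_atTop_atTop.eventually_ge_atTop _
  filter_upwards [e1, eventually_ge_atTop 1] with k hk1 hk2
  have hl := lk_pos hn hk2
  have hM0 := maxVdm_nonneg (K := K) k
  have h2 : Zkq q μ k ≤ maxVdm K k ^ q * B ^ NN n k := by
    refine (Zkq_le hKne hK hμ hq.le k).trans ?_
    gcongr
    linarith
  have hk0 : (1 : ℝ) ≤ k := by exact_mod_cast hk2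
  calc Zkq q μ k ^ (1 / (q * lk n k)) ≤ (maxVdm K k ^ q * B ^ NN n k) ^ (1 / (q * lk n k)) :=
        Real.rpow_le_rpow (Zkq_nonneg q μ k) h2 (by positivity)
    _ = maxVdm K k ^ (1 / lk n k) * (B ^ NN n k) ^ (1 / (q * lk n k)) := by
        rw [Real.mul_rpow (by positivity) (by positivity), ← Real.rpow_mul hM0]
        congr 2
        field_simp
    _ ≤ maxVdm K k ^ (1 / lk n k) * Real.exp τ := by
        apply mul_le_mul_of_nonneg_left _ (Real.rpow_nonneg hM0 _)
        rw [← Real.rpow_natCast B, ← Real.rpow_mul (by positivity),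
          Real.rpow_def_of_pos (by positivity)]
        apply Real.exp_le_exp.mpr
        rw [mul_one_div, ← mul_div_assoc, div_le_iff₀ (by positivity)]
        rw [div_le_iff₀ (by positivity)] at hk1
        have h5 := le_lk hn k
        have h6 : (0 : ℝ) ≤ NN n k := Nat.cast_nonneg _
        have h7 : 2 * Real.log B * NN n k ≤ (k * (τ * q)) * NN n k := by gcongr
        have h8 : τ * q * (k * NN n k) ≤ τ * q * (2 * lk n k) := by gcongr
        nlinarith

theorem condZq_of_good (hn : 1 ≤ n) {K : Set (Fin n → ℂ)} (hKne : K.Nonempty)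
    (hKc : IsCompact K) {μ : Measure (Fin n → ℂ)} [IsFiniteMeasure μ] (hμ : μ Kᶜ = 0) {δ : ℝ}
    (hδ : Tendsto (fun k => maxVdm K k ^ (1 / lk n k)) atTop (𝓝 δ)) {q : ℝ} (hq : 0 < q)
    (H : Good q K μ) : CondZq q μ δ := by
  apply tendsto_of_exp hδ (fun k => Real.rpow_nonneg (maxVdm_nonneg k) _)
  · intro τ hτ
    filter_upwards [H (τ * q / 2) (by positivity), eventually_ge_atTop 1] with k ⟨hM, hk1⟩ hk
    have hl := lk_pos hn hk
    calc maxVdm K k ^ (1 / lk n k) * Real.exp (-τ)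
        ≤ (maxVdm K k ^ q * Real.exp (-(τ * q / 2 * (k * NN n k)))) ^ (1 / (q * lk n k)) := by
          rw [Real.mul_rpow (by positivity) (Real.exp_pos _).le,
            ← Real.rpow_mul (maxVdm_nonneg k), ← Real.exp_mul]
          have h4 : q * (1 / (q * lk n k)) = 1 / lk n k := by
            field_simp
          rw [h4]
          apply mul_le_mul_of_nonneg_left _ (Real.rpow_nonneg (maxVdm_nonneg k) _)
          apply Real.exp_le_exp.mpr
          rw [mul_one_div, le_div_iff₀ (by positivity)]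
          have h5 := le_lk hn k
          have h8 : τ * q * (k * NN n k) ≤ τ * q * (2 * lk n k) := by gcongr
          nlinarith
      _ ≤ Zkq q μ k ^ (1 / (q * lk n k)) := Real.rpow_le_rpow (by positivity) hk1 (by positivity)
  · intro τ hτ
    exact upper_q hn hKne hKc hμ hq hτ

theorem condZq_zero (hn : 1 ≤ n) {K : Set (Fin n → ℂ)} (hKne : K.Nonempty)
    (hKc : IsCompact K)
    {μ : Measure (Fin n → ℂ)} [IsFiniteMeasure μ] (hμ : μ Kᶜ = 0)
    (hδ : Tendsto (fun k => maxVdm K k ^ (1 / lk n k)) atTop (𝓝 0)) {q : ℝ} (hq : 0 < q) :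
    CondZq q μ 0 := by
  unfold CondZq
  have h1 := upper_q hn hKne hKc hμ hq one_pos
  have h2 : Tendsto (fun k => maxVdm K k ^ (1 / lk n k) * Real.exp 1) atTop (𝓝 0) := by
    simpa using hδ.mul_const (Real.exp 1)
  exact squeeze_zero' (Filter.Eventually.of_forall fun k => Real.rpow_nonneg (Zkq_nonneg q μ k) _)
    h1 h2

theorem good_of_condZq (hn : 1 ≤ n) {K : Set (Fin n → ℂ)}
    {μ : Measure (Fin n → ℂ)} {δ : ℝ} (hδ0 : 0 < δ)
    (hδ : Tendsto (fun k => maxVdm K k ^ (1 / lk n k)) atTop (𝓝 δ)) {q : ℝ} (hq : 0 < q)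
    (hZ : CondZq q μ δ) : Good q K μ := by
  intro τ hτ
  have hlog1 := hδ.log hδ0.ne'
  have hlog2 := Filter.Tendsto.log hZ hδ0.ne'
  have hsub := hlog1.sub hlog2
  rw [sub_self] at hsub
  have e1 : ∀ᶠ k in atTop, Real.log (maxVdm K k ^ (1 / lk n k)) -
      Real.log (Zkq q μ k ^ (1 / (q * lk n k))) < τ / q :=
    hsub.eventually_lt_const (by positivity)
  have e2 := hδ.eventually_const_lt hδ0
  have e3 := Filter.Tendsto.eventually_const_lt hδ0 hZ
  filter_upwards [e1, e2, e3, eventually_ge_atTop 1] with k h1 h2 h3 hk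
  have hl := lk_pos hn hk
  have hmvp : 0 < maxVdm K k := by
    rcases (maxVdm_nonneg (K := K) k).eq_or_lt with h | h
    · rw [← h, Real.zero_rpow (by positivity)] at h2
      exact absurd h2 (lt_irrefl 0)
    · exact h
  have hZp : 0 < Zkq q μ k := by
    rcases (Zkq_nonneg q μ k).eq_or_lt with h | h
    · rw [← h, Real.zero_rpow (by positivity)] at h3
      exact absurd h3 (lt_irrefl 0)
    · exact h
  refine ⟨hmvp, ?_⟩
  rw [Real.log_rpow hmvp, Real.log_rpow hZp] at h1
  have h5 : q * Real.log (maxVdm K k) - Real.log (Zkq q μ k) ≤ τ * lk n k := by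
    have h6 : (1 / lk n k * Real.log (maxVdm K k) - 1 / (q * lk n k) * Real.log (Zkq q μ k)) *
        (q * lk n k) ≤ τ / q * (q * lk n k) := by gcongr
    have h7 : (1 / lk n k * Real.log (maxVdm K k) - 1 / (q * lk n k) * Real.log (Zkq q μ k)) *
        (q * lk n k) = q * Real.log (maxVdm K k) - Real.log (Zkq q μ k) := by
      field_simp
    have h8 : τ / q * (q * lk n k) = τ * lk n k := by field_simp
    rw [h7, h8] at h6
    linarith
  have h9 := lk_le n k
  have h10 : τ * lk n k ≤ τ * (k * NN n k) := by gcongr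
  rw [← Real.exp_log hZp, Real.rpow_def_of_pos hmvp, ← Real.exp_add]
  apply Real.exp_le_exp.mpr
  nlinarith

theorem good_anti {K : Set (Fin n → ℂ)} (hKne : K.Nonempty)
    (hKc : IsCompact K) {μ : Measure (Fin n → ℂ)} [IsFiniteMeasure μ] (hμ : μ Kᶜ = 0)
    {q r : ℝ} (hq : 0 < q) (hqr : q ≤ r) (H : Good r K μ) : Good q K μ := by
  intro τ hτ
  filter_upwards [H τ hτ] with k ⟨hM, hk⟩
  refine ⟨hM, ?_⟩
  have h1 : Zkq r μ k ≤ maxVdm K k ^ (r - q) * Zkq q μ k := by
    unfold Zkq
    rw [← integral_const_mul]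
    apply integral_mono_ae (vdm_int hKne hKc hμ (by linarith) k)
      ((vdm_int hKne hKc hμ hq.le k).const_mul _)
    filter_upwards [ae_vdm_le hKne hKc hμ k] with y hy
    calc ‖vdm n k y‖ ^ r = ‖vdm n k y‖ ^ (r - q) * ‖vdm n k y‖ ^ q := by
          rw [← Real.rpow_add' (norm_nonneg _) (by linarith)]
          congr 1
          ring
      _ ≤ _ := by
          gcongr
  have h2 : maxVdm K k ^ r = maxVdm K k ^ (r - q) * maxVdm K k ^ q := by
    rw [← Real.rpow_add hM]
    congr 1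
    ring
  have h3 : 0 < maxVdm K k ^ (r - q) := Real.rpow_pos_of_pos hM _
  rw [h2] at hk
  have h4 := hk.trans h1
  rw [mul_assoc] at h4
  exact le_of_mul_le_mul_left h4 h3

theorem good_mono {K : Set (Fin n → ℂ)} (hKne : K.Nonempty)
    (hKc : IsCompact K) {μ : Measure (Fin n → ℂ)} [IsFiniteMeasure μ] (hμ : μ Kᶜ = 0)
    {q r : ℝ} (hq : 0 < q) (hqr : q ≤ r) (H : Good q K μ) : Good r K μ := by
  rcases hqr.eq_or_lt with rfl | hlt
  · exact H
  intro τ hτ
  have hr : 0 < r := hq.trans hlt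
  set m := μ.real Set.univ with hm
  have hm0 : 0 ≤ m := measureReal_nonneg
  set L := Real.log (m + 1) with hL
  have hL0 : 0 ≤ L := Real.log_nonneg (by linarith)
  have e1 : ∀ᶠ k : ℕ in atTop, (r / q) * L / (τ / 2) ≤ k :=
    tendsto_natCast_atTop_atTop.eventually_ge_atTop _
  filter_upwards [H (τ / 2 * (q / r)) (by positivity), e1] with k ⟨hM, hk⟩ hk1
  refine ⟨hM, ?_⟩
  have hZ0 := Zkq_nonneg r μ k
  -- Hölder
  have hH : Zkq q μ k ≤ Zkq r μ k ^ (q / r) * ((m + 1) ^ NN n k) ^ (1 - q / r) := by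
    have hpq : (r / q).HolderConjugate (Real.conjExponent (r / q)) :=
      Real.HolderConjugate.conjExponent ((one_lt_div hq).mpr hlt)
    have h1 := integral_mul_le_Lp_mul_Lq_of_nonneg (μ := Measure.pi fun _ : Ix n k => μ) hpq
      (f := fun y => ‖vdm n k y‖ ^ q) (g := fun _ => (1 : ℝ))
      (Filter.Eventually.of_forall fun y => by positivity)
      (Filter.Eventually.of_forall fun y => zero_le_one) ?_ ?_
    · simp only [mul_one, Real.one_rpow, integral_const, smul_eq_mul] at h1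
      have h2 : ∀ y : Ix n k → Fin n → ℂ, (‖vdm n k y‖ ^ q) ^ (r / q) = ‖vdm n k y‖ ^ r := by
        intro y
        rw [← Real.rpow_mul (norm_nonneg _)]
        congr 1
        field_simp
      simp only [h2] at h1
      have h3 : 1 / (r / q) = q / r := by rw [one_div_div]
      have h4 : 1 / Real.conjExponent (r / q) = 1 - q / r := by
        have := hpq.inv_add_inv_eq_one
        rw [one_div]
        have h5 : (r / q)⁻¹ = q / r := by rw [inv_div]
        rw [h5] at this
        linarith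
      rw [h3, h4, mass_pi] at h1
      refine h1.trans ?_
      apply mul_le_mul_of_nonneg_left _ (by positivity)
      apply Real.rpow_le_rpow (by positivity) _ (by rw [sub_nonneg, div_le_one hr]; exact hqr)
      gcongr
      linarith
    · apply MemLp.of_bound (C := maxVdm K k ^ q) (vdm_rpow_continuous hq.le k).aestronglyMeasurable
      filter_upwards [ae_vdm_le hKne hKc hμ k] with y hy
      rw [Real.norm_of_nonneg (by positivity)]
      exact Real.rpow_le_rpow (norm_nonneg _) hy hq.le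
    · exact memLp_const _
  have hmp : 0 < (m + 1) ^ NN n k := by positivity
  have hZp : 0 < Zkq r μ k := by
    rcases hZ0.eq_or_lt with h | h
    · rw [← h, Real.zero_rpow (by positivity), zero_mul] at hH
      have : 0 < maxVdm K k ^ q * Real.exp (-(τ / 2 * (q / r) * (k * NN n k))) := by positivity
      linarith
    · exact h
  have h6 := hk.trans hH
  rw [← Real.exp_log hZp, Real.rpow_def_of_pos hM, ← Real.exp_add]
  apply Real.exp_le_exp.mpr
  have h7 := Real.log_le_log (by positivity) h6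
  rw [Real.log_mul (by positivity) (by positivity), Real.log_mul (by positivity) (by positivity),
    Real.log_rpow hM, Real.log_exp, Real.log_rpow hZp, Real.log_rpow hmp, Real.log_pow, ← hL] at h7
  have hN0 : (0 : ℝ) ≤ NN n k := Nat.cast_nonneg _
  have h8 : (r / q) * L * NN n k ≤ τ / 2 * (k * NN n k) := by
    rw [div_le_iff₀ (by positivity)] at hk1
    have := mul_le_mul_of_nonneg_right hk1 hN0
    linarith
  have h9 : (1 - q / r) * (NN n k * L) ≤ NN n k * L := by
    have h10 : 0 ≤ q / r := by positivity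
    have h11 : 0 ≤ NN n k * L := by positivity
    nlinarith
  have h12 := mul_le_mul_of_nonneg_left (h7.trans (add_le_add_right h9 _)) (by positivity : 0 ≤ r / q)
  have e2 : r / q * (q * Real.log (maxVdm K k) + -(τ / 2 * (q / r) * (k * NN n k))) =
      r * Real.log (maxVdm K k) - τ / 2 * (k * NN n k) := by
    field_simp
    ring
  have e3 : r / q * (q / r * Real.log (Zkq r μ k) + NN n k * L) =
      Real.log (Zkq r μ k) + r / q * L * NN n k := by
    field_simp
  rw [e2, e3] at h12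
  linarith

end Pool.Agent.KS6_48.VP
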